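import Mathlib

/-!
Removable singularities of quotients.
-/

set_option autoImplicit false

namespace Pool.Agent.V1153.KB

open Filter Topology Set Metric

theorem ball_punct {b : ℂ → ℂ} {R : ℝ} (hb : DifferentiableOn ℂ b (ball 0 R))
    (hb0 : ∃ z ∈ ball (0 : ℂ) R, b z ≠ 0) {z : ℂ} (hz : z ∈ ball (0 : ℂ) R) :
    ∀ᶠ w in 𝓝[≠] z, b w ≠ 0 := by
  have han : AnalyticOnNhd ℂ b (ball 0 R) := hb.analyticOnNhd isOpen_ball
  rcases (han z hz).eventually_eq_zero_or_eventually_ne_zero with h | h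
  · obtain ⟨w, hw, hbw⟩ := hb0
    exact absurd (han.eqOn_zero_of_preconnected_of_eventuallyEq_zero
      (convex_ball 0 R).isPreconnected hz h hw) hbw
  · exact h

/-- **Removable singularities of a quotient.** -/
theorem ext_quot {a b : ℂ → ℂ} {R : ℝ} (ha : DifferentiableOn ℂ a (ball 0 R))
    (hb : DifferentiableOn ℂ b (ball 0 R)) (hb0 : ∃ z ∈ ball (0 : ℂ) R, b z ≠ 0)
    {M : ℂ → ℝ} (hM : Continuous M)
    (h : ∀ z ∈ ball (0 : ℂ) R, b z ≠ 0 → ‖a z / b z‖ ≤ M z) :
    ∃ H : ℂ → ℂ, DifferentiableOn ℂ H (ball 0 R) ∧ (∀ z ∈ ball (0 : ℂ) R, a z = H z * b z) ∧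
      ∀ z ∈ ball (0 : ℂ) R, ‖H z‖ ≤ M z := by
  set q : ℂ → ℂ := fun w => a w / b w with hq
  set H : ℂ → ℂ := fun z => limUnder (𝓝[≠] z) q with hH
  have hHq : ∀ z ∈ ball (0 : ℂ) R, b z ≠ 0 → H z = q z := by
    intro z hz hbz
    have h1 : ContinuousAt q z := (ha.continuousOn.continuousAt (isOpen_ball.mem_nhds hz)).div
      (hb.continuousOn.continuousAt (isOpen_ball.mem_nhds hz)) hbz
    exact (h1.tendsto.mono_left nhdsWithin_le_nhds).limUnder_eq
  have hd : ∀ z ∈ ball (0 : ℂ) R, DifferentiableAt ℂ H z := by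
    intro z hz
    have h1 : ∀ᶠ w in 𝓝 z, w ∈ ball (0 : ℂ) R ∧ M w < M z + 1 ∧ (w ≠ z → b w ≠ 0) := by
      have e1 : ball (0 : ℂ) R ∈ 𝓝 z := isOpen_ball.mem_nhds hz
      have e2 : ∀ᶠ w in 𝓝 z, M w < M z + 1 :=
        hM.continuousAt.eventually_lt continuousAt_const (by linarith)
      have e3 := eventually_nhdsWithin_iff.1 (ball_punct hb hb0 hz)
      filter_upwards [e1, e2, e3] with w h1 h2 h3
      exact ⟨h1, h2, h3⟩
    obtain ⟨ε, hε, hball⟩ := Metric.eventually_nhds_iff_ball.1 h1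
    have h2 : DifferentiableOn ℂ q (ball z ε \ {z}) := by
      intro w hw
      obtain ⟨h3, -, h4⟩ := hball w hw.1
      have h5 := h4 hw.2
      exact (((ha.differentiableAt (isOpen_ball.mem_nhds h3)).div
        (hb.differentiableAt (isOpen_ball.mem_nhds h3)) h5)).differentiableWithinAt
    have h3 : BddAbove (norm ∘ q '' (ball z ε \ {z})) := by
      refine ⟨M z + 1, ?_⟩
      rintro _ ⟨w, hw, rfl⟩
      obtain ⟨h3, h4, h5⟩ := hball w hw.1
      exact (h w h3 (h5 hw.2)).trans h4.le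
    have h4 := Complex.differentiableOn_update_limUnder_of_bddAbove (ball_mem_nhds z hε) h2 h3
    refine (h4.differentiableAt (ball_mem_nhds z hε)).congr_of_eventuallyEq ?_
    filter_upwards [ball_mem_nhds z hε] with w hw
    by_cases hwz : w = z
    · rw [hwz, Function.update_self]
    · rw [Function.update_of_ne hwz]
      obtain ⟨h5, -, h6⟩ := hball w hw
      exact hHq w h5 (h6 hwz)
  refine ⟨H, fun z hz => (hd z hz).differentiableWithinAt, fun z hz => ?_, fun z hz => ?_⟩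
  · have h1 : Tendsto a (𝓝[≠] z) (𝓝 (a z)) :=
      ((ha.continuousOn.continuousAt (isOpen_ball.mem_nhds hz)).tendsto).mono_left
        nhdsWithin_le_nhds
    have h2 : Tendsto (fun w => H w * b w) (𝓝[≠] z) (𝓝 (H z * b z)) :=
      (((hd z hz).continuousAt.mul (hb.continuousOn.continuousAt
        (isOpen_ball.mem_nhds hz))).tendsto).mono_left nhdsWithin_le_nhds
    refine tendsto_nhds_unique h1 (h2.congr' ?_)
    filter_upwards [ball_punct hb hb0 hz, nhdsWithin_le_nhds (isOpen_ball.mem_nhds hz)] with w h3 h4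
    rw [hHq w h4 h3]
    exact div_mul_cancel₀ _ h3
  · have h1 : Tendsto (fun w => ‖H w‖) (𝓝[≠] z) (𝓝 ‖H z‖) :=
      ((hd z hz).continuousAt.norm.tendsto).mono_left nhdsWithin_le_nhds
    have h2 : Tendsto M (𝓝[≠] z) (𝓝 (M z)) := (hM.continuousAt.tendsto).mono_left
      nhdsWithin_le_nhds
    refine le_of_tendsto_of_tendsto h1 h2 ?_
    filter_upwards [ball_punct hb hb0 hz, nhdsWithin_le_nhds (isOpen_ball.mem_nhds hz)] with w h3 h4
    rw [hHq w h4 h3]
    exact h w h4 h3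

end Pool.Agent.V1153.KB
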