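import Pool.Agent.V1153.UG.Ent
import Pool.Agent.V1153.KB.Ext

/-!
Pairs of functions which satisfy an algebraic equation of bounded degree.
-/

set_option autoImplicit false

namespace Pool.Agent.V1153.KB

open Filter Topology Set Metric

/-- The functions `a` and `b` satisfy on `U` an equation which is homogeneous of degree `m` in `a` and
`b` and has coefficients which are polynomials in `z` of degree at most `m`. -/
def AlgP (m : ℕ) (U : Set ℂ) (a b : ℂ → ℂ) : Prop :=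
  ∃ c : Fin (m + 1) → Fin (m + 1) → ℂ, c ≠ 0 ∧ ∀ z ∈ U,
    ∑ β : Fin (m + 1), (∑ α : Fin (m + 1), c β α * z ^ (α : ℕ)) * a z ^ (β : ℕ) *
      b z ^ (m - β) = 0

theorem AlgP.norm {m : ℕ} {U : Set ℂ} {a b : ℂ → ℂ} (h : AlgP m U a b) :
    ∃ c : Fin (m + 1) → Fin (m + 1) → ℂ, ‖c‖ = 1 ∧ ∀ z ∈ U,
      ∑ β : Fin (m + 1), (∑ α : Fin (m + 1), c β α * z ^ (α : ℕ)) * a z ^ (β : ℕ) *
        b z ^ (m - β) = 0 := by
  obtain ⟨c, hc, h⟩ := h
  have h0 : ‖c‖ ≠ 0 := norm_ne_zero_iff.2 hc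
  refine ⟨fun β α => ((‖c‖⁻¹ : ℝ) : ℂ) * c β α, ?_, fun z hz => ?_⟩
  · have h1 : (fun β α => ((‖c‖⁻¹ : ℝ) : ℂ) * c β α) = ((‖c‖⁻¹ : ℝ) : ℂ) • c := rfl
    rw [h1, norm_smul, Complex.norm_real, Real.norm_of_nonneg (inv_nonneg.2 (norm_nonneg _))]
    exact inv_mul_cancel₀ h0
  · have h2 : ∀ β : Fin (m + 1), (∑ α : Fin (m + 1), ((‖c‖⁻¹ : ℝ) : ℂ) * c β α * z ^ (α : ℕ)) *
        a z ^ (β : ℕ) * b z ^ (m - β) = ((‖c‖⁻¹ : ℝ) : ℂ) *
          ((∑ α : Fin (m + 1), c β α * z ^ (α : ℕ)) * a z ^ (β : ℕ) * b z ^ (m - β)) := by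
      intro β
      rw [← mul_assoc, ← mul_assoc, Finset.mul_sum]
      congr 2
      refine Finset.sum_congr rfl fun α _ => ?_
      ring
    rw [Finset.sum_congr rfl fun β _ => h2 β, ← Finset.mul_sum, h z hz, mul_zero]

theorem AlgP.of_poly {m : ℕ} {U : Set ℂ} {a b : ℂ → ℂ} (p : Fin (m + 1) → Polynomial ℂ)
    (hp : ∃ β, p β ≠ 0) (hd : ∀ β, (p β).natDegree ≤ m)
    (h : ∀ z ∈ U, ∑ β : Fin (m + 1), (p β).eval z * a z ^ (β : ℕ) * b z ^ (m - β) = 0) :
    AlgP m U a b := by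
  have key : ∀ β z, ∑ α : Fin (m + 1), (p β).coeff α * z ^ (α : ℕ) = (p β).eval z := by
    intro β z
    rw [Polynomial.eval_eq_sum_range' (Nat.lt_succ_of_le (hd β)), Finset.sum_range]
  refine ⟨fun β α => (p β).coeff α, ?_, fun z hz => ?_⟩
  · obtain ⟨β, hβ⟩ := hp
    intro h0
    apply hβ
    apply Polynomial.funext
    intro z
    rw [← key, Polynomial.eval_zero]
    refine Finset.sum_eq_zero fun α _ => ?_
    have h1 : (p β).coeff α = 0 := congrFun (congrFun h0 β) α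
    rw [h1, zero_mul]
  · simp only [key]
    exact h z hz

theorem AlgP.poly {m : ℕ} {U : Set ℂ} {a b : ℂ → ℂ} (h : AlgP m U a b) :
    ∃ p : Fin (m + 1) → Polynomial ℂ, (∃ β, p β ≠ 0) ∧ (∀ β, (p β).natDegree ≤ m) ∧
      ∀ z ∈ U, ∑ β : Fin (m + 1), (p β).eval z * a z ^ (β : ℕ) * b z ^ (m - β) = 0 := by
  obtain ⟨c, hc, h⟩ := h
  refine ⟨fun β => ∑ α : Fin (m + 1), Polynomial.C (c β α) * Polynomial.X ^ (α : ℕ), ?_, ?_, ?_⟩
  · by_contra hcon
    push Not at hcon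
    apply hc
    funext β α
    have h1 := congrArg (fun q : Polynomial ℂ => q.coeff α) (hcon β)
    simp only [Polynomial.finsetSum_coeff, Polynomial.coeff_C_mul, Polynomial.coeff_X_pow,
      Polynomial.coeff_zero] at h1
    rw [Finset.sum_eq_single α] at h1
    · simpa using h1
    · intro b _ hb
      rw [if_neg (fun h2 => hb (Fin.ext h2.symm)), mul_zero]
    · intro h2
      exact absurd (Finset.mem_univ _) h2
  · intro β
    refine Polynomial.natDegree_sum_le_of_forall_le _ _ fun α _ => ?_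
    refine (Polynomial.natDegree_C_mul_X_pow_le _ _).trans ?_
    omega
  · intro z hz
    rw [← h z hz]
    refine Finset.sum_congr rfl fun β _ => ?_
    rw [Polynomial.eval_finsetSum]
    congr 2
    refine Finset.sum_congr rfl fun α _ => ?_
    rw [Polynomial.eval_mul, Polynomial.eval_C, Polynomial.eval_pow, Polynomial.eval_X]

theorem AlgP.mono {m : ℕ} {U V : Set ℂ} {a b : ℂ → ℂ} (h : AlgP m U a b) (hV : V ⊆ U) :
    AlgP m V a b := by
  obtain ⟨c, hc, h⟩ := h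
  exact ⟨c, hc, fun z hz => h z (hV hz)⟩

theorem AlgP.le {m N : ℕ} (hmN : m ≤ N) {U : Set ℂ} {a b : ℂ → ℂ} (h : AlgP m U a b) :
    AlgP N U a b := by
  classical
  obtain ⟨p, ⟨β0, hp⟩, hd, h⟩ := h.poly
  let q : Fin (N + 1) → Polynomial ℂ := fun β => if hβ : (β : ℕ) < m + 1 then p ⟨β, hβ⟩ else 0
  refine AlgP.of_poly q ⟨⟨β0, by omega⟩, ?_⟩ (fun β => ?_) fun z hz => ?_
  · simp only [q]
    rw [dif_pos β0.2]
    exact hp
  · simp only [q]
    split_ifs with h1
    · exact (hd _).trans hmN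
    · rw [Polynomial.natDegree_zero]
      exact Nat.zero_le _
  · obtain ⟨k, rfl⟩ := Nat.exists_eq_add_of_le hmN
    have h1 : ∑ β : Fin (m + k + 1), (q β).eval z * a z ^ (β : ℕ) * b z ^ (m + k - β) =
        b z ^ k * ∑ β : Fin (m + 1), (p β).eval z * a z ^ (β : ℕ) * b z ^ (m - β) := by
      rw [Finset.mul_sum, Finset.sum_fin_eq_sum_range, Finset.sum_fin_eq_sum_range]
      have h2 : Finset.range (m + 1) ⊆ Finset.range (m + k + 1) :=
        Finset.range_mono (by omega)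
      symm
      refine Finset.sum_subset_zero_on_sdiff h2 ?_ ?_
      · intro x hx
        rw [Finset.mem_sdiff, Finset.mem_range, Finset.mem_range] at hx
        rw [dif_pos hx.1]
        simp only [q]
        rw [dif_neg hx.2, Polynomial.eval_zero, zero_mul, zero_mul]
      · intro x hx
        rw [Finset.mem_range] at hx
        rw [dif_pos hx, dif_pos (by omega)]
        simp only [q]
        rw [dif_pos hx]
        have h3 : m + k - x = (m - x) + k := by omega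
        rw [h3, pow_add]
        ring
    rw [h1, h z hz, mul_zero]

/-- substitution of a homography -/
theorem AlgP.comp {m : ℕ} {U V : Set ℂ} {a b : ℂ → ℂ} (h : AlgP m U a b) (hV : V.Infinite)
    {s t u v : ℂ} {φ : ℂ → ℂ} (hφ : ∀ w ∈ V, φ w ∈ U) (hinj : InjOn φ V)
    (h0 : ∀ w ∈ V, u * w + v ≠ 0)
    (hφe : ∀ w ∈ V, φ w * (u * w + v) = s * w + t) :
    AlgP m V (fun w => a (φ w)) fun w => b (φ w) := by
  obtain ⟨c, hc, h⟩ := h
  let A : Polynomial ℂ := Polynomial.C s * Polynomial.X + Polynomial.C t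
  let B : Polynomial ℂ := Polynomial.C u * Polynomial.X + Polynomial.C v
  have hA : ∀ w, A.eval w = s * w + t := fun w => by
    simp only [A, Polynomial.eval_add, Polynomial.eval_mul, Polynomial.eval_C, Polynomial.eval_X]
  have hB : ∀ w, B.eval w = u * w + v := fun w => by
    simp only [B, Polynomial.eval_add, Polynomial.eval_mul, Polynomial.eval_C, Polynomial.eval_X]
  have dA : A.natDegree ≤ 1 := Polynomial.natDegree_linear_le
  have dB : B.natDegree ≤ 1 := Polynomial.natDegree_linear_le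
  let p : Fin (m + 1) → Polynomial ℂ := fun β =>
    ∑ α : Fin (m + 1), Polynomial.C (c β α) * (A ^ (α : ℕ) * B ^ (m - α))
  have hp : ∀ β, ∀ w ∈ V, (p β).eval w =
      (u * w + v) ^ m * ∑ α : Fin (m + 1), c β α * (φ w) ^ (α : ℕ) := by
    intro β w hw
    simp only [p]
    rw [Polynomial.eval_finsetSum, Finset.mul_sum]
    refine Finset.sum_congr rfl fun α _ => ?_
    rw [Polynomial.eval_mul, Polynomial.eval_C, Polynomial.eval_mul, Polynomial.eval_pow,
      Polynomial.eval_pow, hA, hB, ← hφe w hw, mul_pow]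
    have h1 : (u * w + v) ^ m = (u * w + v) ^ (α : ℕ) * (u * w + v) ^ (m - α) := by
      rw [← pow_add]
      congr 1
      omega
    rw [h1]
    ring
  refine AlgP.of_poly p ?_ (fun β => ?_) fun w hw => ?_
  · by_contra hcon
    push Not at hcon
    apply hc
    obtain ⟨q, hq⟩ : ∃ q : Fin (m + 1) → Polynomial ℂ, ∀ β,
        q β = ∑ α : Fin (m + 1), Polynomial.C (c β α) * Polynomial.X ^ (α : ℕ) := ⟨_, fun _ => rfl⟩
    have hq0 : ∀ β, q β = 0 := by
      intro β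
      refine Polynomial.eq_zero_of_infinite_isRoot _ ((hV.image hinj).mono ?_)
      rintro _ ⟨w, hw, rfl⟩
      change (q β).IsRoot (φ w)
      rw [Polynomial.IsRoot.def, hq, Polynomial.eval_finsetSum]
      have h1 := hp β w hw
      rw [hcon β, Polynomial.eval_zero] at h1
      have h2 := (mul_eq_zero.1 h1.symm).resolve_left (pow_ne_zero _ (h0 w hw))
      rw [← h2]
      refine Finset.sum_congr rfl fun α _ => ?_
      rw [Polynomial.eval_mul, Polynomial.eval_C, Polynomial.eval_pow, Polynomial.eval_X]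
    funext β α
    have h1 := congrArg (fun q : Polynomial ℂ => q.coeff α) (hq0 β)
    simp only [hq, Polynomial.finsetSum_coeff, Polynomial.coeff_C_mul, Polynomial.coeff_X_pow,
      Polynomial.coeff_zero] at h1
    rw [Finset.sum_eq_single α] at h1
    · simpa using h1
    · intro b _ hb
      rw [if_neg (fun h2 => hb (Fin.ext h2.symm)), mul_zero]
    · intro h2
      exact absurd (Finset.mem_univ _) h2
  · refine Polynomial.natDegree_sum_le_of_forall_le _ _ fun α _ => ?_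
    refine (Polynomial.natDegree_C_mul_le _ _).trans ?_
    refine Polynomial.natDegree_mul_le.trans ?_
    have h1 : (A ^ (α : ℕ)).natDegree ≤ α := by
      refine Polynomial.natDegree_pow_le.trans ?_
      nlinarith
    have h2 : (B ^ (m - α)).natDegree ≤ m - α := by
      refine Polynomial.natDegree_pow_le.trans ?_
      nlinarith
    omega
  · have h1 := h (φ w) (hφ w hw)
    have h2 : ∑ β : Fin (m + 1), (p β).eval w * a (φ w) ^ (β : ℕ) * b (φ w) ^ (m - β) =
        (u * w + v) ^ m * ∑ β : Fin (m + 1), (∑ α : Fin (m + 1), c β α * (φ w) ^ (α : ℕ)) *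
          a (φ w) ^ (β : ℕ) * b (φ w) ^ (m - β) := by
      rw [Finset.mul_sum]
      refine Finset.sum_congr rfl fun β _ => ?_
      rw [hp β w hw]
      ring
    rw [h2, h1, mul_zero]

theorem AlgP.of_pair {m : ℕ} {U : Set ℂ} {a b : ℂ → ℂ} (h : UG.AlgPair m U a b) :
    AlgP m U a b := by
  obtain ⟨c, hc, h⟩ := h
  obtain ⟨p, hp1, hp2, hp3⟩ := UG.pair_poly c hc
  refine AlgP.of_poly p hp1 hp2 fun z hz => ?_
  rw [← hp3]
  exact h z hz

/-- the identity theorem for the equation -/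
theorem AlgP.extend {m : ℕ} {U V : Set ℂ} {a b : ℂ → ℂ} (h : AlgP m V a b) (hU : IsOpen U)
    (hUc : IsPreconnected U) (hV : IsOpen V) (hVne : V.Nonempty) (hVU : V ⊆ U)
    (ha : DifferentiableOn ℂ a U) (hb : DifferentiableOn ℂ b U) : AlgP m U a b := by
  obtain ⟨c, hc, h⟩ := h
  refine ⟨c, hc, ?_⟩
  have h1 : DifferentiableOn ℂ (fun z => ∑ β : Fin (m + 1),
      (∑ α : Fin (m + 1), c β α * z ^ (α : ℕ)) * a z ^ (β : ℕ) * b z ^ (m - β)) U := by
    refine DifferentiableOn.fun_sum fun β _ => ?_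
    refine DifferentiableOn.mul (DifferentiableOn.mul ?_ (ha.pow _)) (hb.pow _)
    refine DifferentiableOn.fun_sum fun α _ => ?_
    exact (differentiableOn_const _).mul (differentiableOn_id.pow _)
  have h2 := h1.analyticOnNhd hU
  obtain ⟨z0, hz0⟩ := hVne
  exact fun z hz => h2.eqOn_zero_of_preconnected_of_eventuallyEq_zero hUc (hVU hz0)
    (by filter_upwards [hV.mem_nhds hz0] with w hw using h w hw) hz

theorem pow_sub_bd {B : ℝ} (hB : 1 ≤ B) {x y : ℂ} (hx : ‖x‖ ≤ B) (hy : ‖y‖ ≤ B) (k : ℕ) :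
    ‖x ^ k - y ^ k‖ ≤ k * B ^ k * ‖x - y‖ := by
  induction k with
  | zero => simp
  | succ k ih =>
    have h1 : x ^ (k + 1) - y ^ (k + 1) = x * (x ^ k - y ^ k) + (x - y) * y ^ k := by ring
    rw [h1]
    refine (norm_add_le _ _).trans ?_
    rw [norm_mul, norm_mul, norm_pow]
    have h2 : ‖x‖ * ‖x ^ k - y ^ k‖ ≤ B * (k * B ^ k * ‖x - y‖) := by gcongr
    have h3 : ‖x - y‖ * ‖y‖ ^ k ≤ ‖x - y‖ * B ^ (k + 1) := by
      gcongr
      calc ‖y‖ ^ k ≤ B ^ k := by gcongr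
        _ ≤ B ^ (k + 1) := pow_le_pow_right₀ hB (by omega)
    have h4 : B * (k * B ^ k * ‖x - y‖) + ‖x - y‖ * B ^ (k + 1) =
        ((k + 1 : ℕ) : ℝ) * B ^ (k + 1) * ‖x - y‖ := by
      push_cast
      ring
    linarith

/-- the size of the solutions of an algebraic equation -/
theorem root_bd {m : ℕ} (p : Fin (m + 1) → ℂ) (τ y : ℂ)
    (h : ∑ β : Fin (m + 1), p β * y ^ (β : ℕ) * (1 - τ * y) ^ (m - β) = 0) :
    ‖(∑ β : Fin (m + 1), p β * (-τ) ^ (m - β)) * y‖ ≤
      (m + 1) * (1 + ‖τ‖) ^ m * ∑ β, ‖p β‖ := by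
  have hB : (1 : ℝ) ≤ 1 + ‖τ‖ := by linarith [norm_nonneg τ]
  have hBm : (1 : ℝ) ≤ (1 + ‖τ‖) ^ m := one_le_pow₀ hB
  have hP : 0 ≤ ∑ β, ‖p β‖ := Finset.sum_nonneg fun _ _ => norm_nonneg _
  by_cases hy : ‖y‖ ≤ 1
  · have h1 : ‖∑ β : Fin (m + 1), p β * (-τ) ^ (m - β)‖ ≤ (1 + ‖τ‖) ^ m * ∑ β, ‖p β‖ := by
      refine (norm_sum_le _ _).trans ?_
      rw [Finset.mul_sum]
      refine Finset.sum_le_sum fun β _ => ?_
      rw [norm_mul, norm_pow, norm_neg, mul_comm]
      refine mul_le_mul_of_nonneg_right ?_ (norm_nonneg _)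
      calc ‖τ‖ ^ (m - β) ≤ (1 + ‖τ‖) ^ (m - β) := by gcongr; linarith
        _ ≤ (1 + ‖τ‖) ^ m := pow_le_pow_right₀ hB (Nat.sub_le _ _)
    rw [norm_mul]
    calc _ ≤ ‖∑ β : Fin (m + 1), p β * (-τ) ^ (m - β)‖ * 1 := by gcongr
      _ ≤ (1 + ‖τ‖) ^ m * ∑ β, ‖p β‖ := by rw [mul_one]; exact h1
      _ = 1 * (1 + ‖τ‖) ^ m * ∑ β, ‖p β‖ := by ring
      _ ≤ (m + 1) * (1 + ‖τ‖) ^ m * ∑ β, ‖p β‖ := by
          gcongr
          have : (0 : ℝ) ≤ m := Nat.cast_nonneg _
          linarith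
  · push Not at hy
    have hy0 : y ≠ 0 := by
      intro h0
      rw [h0, norm_zero] at hy
      linarith
    set v : ℂ := y⁻¹ with hv
    have hv1 : ‖v‖ ≤ 1 := by
      rw [hv, norm_inv]
      exact inv_le_one_of_one_le₀ hy.le
    have h1 : ∑ β : Fin (m + 1), p β * (v - τ) ^ (m - β) = 0 := by
      have h2 : ∑ β : Fin (m + 1), p β * y ^ (β : ℕ) * (1 - τ * y) ^ (m - β) =
          y ^ m * ∑ β : Fin (m + 1), p β * (v - τ) ^ (m - β) := by
        rw [Finset.mul_sum]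
        refine Finset.sum_congr rfl fun β _ => ?_
        have h3 : 1 - τ * y = y * (v - τ) := by
          rw [hv, mul_sub, mul_inv_cancel₀ hy0]
          ring
        have h4 : y ^ m = y ^ (β : ℕ) * y ^ (m - β) := by
          rw [← pow_add]
          congr 1
          omega
        rw [h3, mul_pow, h4]
        ring
      rw [h2] at h
      exact (mul_eq_zero.1 h).resolve_left (pow_ne_zero _ hy0)
    have h2 : ∑ β : Fin (m + 1), p β * (-τ) ^ (m - β) =
        ∑ β : Fin (m + 1), p β * ((-τ) ^ (m - β) - (v - τ) ^ (m - β)) := by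
      have h3 : ∑ β : Fin (m + 1), p β * ((-τ) ^ (m - β) - (v - τ) ^ (m - β)) =
          ∑ β : Fin (m + 1), p β * (-τ) ^ (m - β) - ∑ β : Fin (m + 1), p β * (v - τ) ^ (m - β) := by
        rw [← Finset.sum_sub_distrib]
        exact Finset.sum_congr rfl fun β _ => by ring
      rw [h3, h1, sub_zero]
    have h3 : ‖∑ β : Fin (m + 1), p β * (-τ) ^ (m - β)‖ ≤
        (m * (1 + ‖τ‖) ^ m * ∑ β, ‖p β‖) * ‖v‖ := by
      rw [h2]
      refine (norm_sum_le _ _).trans ?_
      rw [Finset.mul_sum, Finset.sum_mul]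
      refine Finset.sum_le_sum fun β _ => ?_
      rw [norm_mul]
      have h4 := pow_sub_bd hB (x := -τ) (y := v - τ) (by rw [norm_neg]; linarith)
        (by
          have := norm_sub_le v τ
          linarith) (m - β)
      have h5 : ‖-τ - (v - τ)‖ = ‖v‖ := by
        rw [← norm_neg v]
        congr 1
        ring
      rw [h5] at h4
      have h6 : ((m - β : ℕ) : ℝ) * (1 + ‖τ‖) ^ (m - (β : ℕ)) * ‖v‖ ≤
          m * (1 + ‖τ‖) ^ m * ‖v‖ := by
        gcongr
        · exact Nat.sub_le _ _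
        · exact Nat.sub_le _ _
      calc ‖p β‖ * ‖(-τ) ^ (m - (β : ℕ)) - (v - τ) ^ (m - (β : ℕ))‖ ≤
          ‖p β‖ * (m * (1 + ‖τ‖) ^ m * ‖v‖) := by
            gcongr
            exact h4.trans h6
        _ = m * (1 + ‖τ‖) ^ m * ‖p β‖ * ‖v‖ := by ring
    rw [norm_mul]
    calc _ ≤ (m * (1 + ‖τ‖) ^ m * ∑ β, ‖p β‖) * ‖v‖ * ‖y‖ := by gcongr
      _ = (m * (1 + ‖τ‖) ^ m * ∑ β, ‖p β‖) * (‖v‖ * ‖y‖) := by ring
      _ = m * (1 + ‖τ‖) ^ m * ∑ β, ‖p β‖ := by
          rw [hv, norm_inv, inv_mul_cancel₀ (norm_ne_zero_iff.2 hy0), mul_one]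
      _ ≤ (m + 1) * (1 + ‖τ‖) ^ m * ∑ β, ‖p β‖ := by
          gcongr
          linarith

end Pool.Agent.V1153.KB
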