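import Pool.Agent.V1153.KB.Kob
import Pool.Agent.V1153.UR.Spec

/-!
Discs of bounded complexity.
-/

set_option autoImplicit false

namespace Pool.Agent.V1153.KB

open Filter Topology Set Metric MvPolynomial ComplexConjugate
open Pool.Agent.V1153.UG Pool.Agent.V1153.UR
open Pool.Agent.TH143.GT (FunField)
open Pool.Agent.W602.GT (LogGeneralType)
open Pool.Agent.W603.GR (OffQ)
open scoped ENNReal

variable {n : ℕ}

/-- the holomorphic maps of complexity at most `(s, r, e, d)` from the unit disc to the projective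
variety with the equations `E` -/
def DCx (E : Set (MvPolynomial (Fin (n + 1)) ℂ)) (s r e d : ℕ) (f : ℂ → Fin (n + 1) → ℂ) : Prop :=
  RDisc E 1 f ∧ Bdd (ball 0 1) 1 s r e d f

/-- The norm of the derivative of the map with the homogeneous coordinates `f`, for the
Fubini-Study metric. -/
noncomputable def fs (f : ℂ → Fin (n + 1) → ℂ) (z : ℂ) : ℝ :=
  Real.sqrt ((∑ p : Fin (n + 1) × Fin (n + 1),
    ‖f z p.1 * deriv (fun w => f w p.2) z - f z p.2 * deriv (fun w => f w p.1) z‖ ^ 2) / 2) /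
      ∑ l, ‖f z l‖ ^ 2

theorem fs_le {f : ℂ → Fin (n + 1) → ℂ} {z : ℂ} (hne : f z ≠ 0) : fs f z ≤ (n + 1) * W f z := by
  have hN : 0 < ‖f z‖ := norm_pos_iff.2 hne
  have h1 : ∑ p : Fin (n + 1) × Fin (n + 1),
      ‖f z p.1 * deriv (fun w => f w p.2) z - f z p.2 * deriv (fun w => f w p.1) z‖ ^ 2 ≤
        ((n + 1) * ‖wr f z‖) ^ 2 := by
    have h2 : ∀ p ∈ (Finset.univ : Finset (Fin (n + 1) × Fin (n + 1))),
        ‖f z p.1 * deriv (fun w => f w p.2) z - f z p.2 * deriv (fun w => f w p.1) z‖ ^ 2 ≤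
          ‖wr f z‖ ^ 2 := fun p _ =>
      pow_le_pow_left₀ (norm_nonneg _) (norm_le_pi_norm (wr f z) p) 2
    refine (Finset.sum_le_card_nsmul _ _ _ h2).trans (le_of_eq ?_)
    rw [Finset.card_univ, Fintype.card_prod, Fintype.card_fin, nsmul_eq_mul]
    push_cast
    ring
  have h3 : Real.sqrt ((∑ p : Fin (n + 1) × Fin (n + 1),
      ‖f z p.1 * deriv (fun w => f w p.2) z - f z p.2 * deriv (fun w => f w p.1) z‖ ^ 2) / 2) ≤
        (n + 1) * ‖wr f z‖ := by
    rw [← Real.sqrt_sq (by positivity : (0 : ℝ) ≤ (n + 1) * ‖wr f z‖)]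
    refine Real.sqrt_le_sqrt ?_
    have h4 : (0 : ℝ) ≤ ∑ p : Fin (n + 1) × Fin (n + 1),
      ‖f z p.1 * deriv (fun w => f w p.2) z - f z p.2 * deriv (fun w => f w p.1) z‖ ^ 2 :=
        Finset.sum_nonneg fun _ _ => sq_nonneg _
    linarith
  have h5 := norm_sq_le (f z)
  unfold nsq at h5
  unfold fs W
  calc _ ≤ (n + 1) * ‖wr f z‖ / ∑ l, ‖f z l‖ ^ 2 := by gcongr
    _ ≤ (n + 1) * ‖wr f z‖ / ‖f z‖ ^ 2 := by gcongr
    _ = _ := by rw [mul_div_assoc]

theorem le_fs {f : ℂ → Fin (n + 1) → ℂ} {z : ℂ} (hne : f z ≠ 0) :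
    W f z ≤ 2 * (n + 1) * fs f z := by
  have hN : 0 < ‖f z‖ := norm_pos_iff.2 hne
  set T : ℝ := ∑ p : Fin (n + 1) × Fin (n + 1),
    ‖f z p.1 * deriv (fun w => f w p.2) z - f z p.2 * deriv (fun w => f w p.1) z‖ ^ 2 with hT
  have hT0 : 0 ≤ T := Finset.sum_nonneg fun _ _ => sq_nonneg _
  have h1 : ‖wr f z‖ ≤ 2 * Real.sqrt (T / 2) := by
    have h2 : ‖wr f z‖ ^ 2 ≤ T := by
      obtain ⟨p, -, hp⟩ := Finset.exists_max_image Finset.univ (fun p => ‖wr f z p‖)
        Finset.univ_nonempty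
      have hp' : ‖wr f z p‖ = ‖wr f z‖ := le_antisymm (norm_le_pi_norm _ p)
        ((pi_norm_le_iff_of_nonneg (norm_nonneg _)).2 fun q => hp q (Finset.mem_univ q))
      rw [← hp']
      exact Finset.single_le_sum (f := fun p : Fin (n + 1) × Fin (n + 1) =>
        ‖f z p.1 * deriv (fun w => f w p.2) z - f z p.2 * deriv (fun w => f w p.1) z‖ ^ 2)
        (fun _ _ => sq_nonneg _) (Finset.mem_univ p)
    have h3 : ‖wr f z‖ ^ 2 ≤ (2 * Real.sqrt (T / 2)) ^ 2 := by
      rw [mul_pow, Real.sq_sqrt (by positivity)]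
      linarith
    exact (pow_le_pow_iff_left₀ (norm_nonneg _) (by positivity) two_ne_zero).1 h3
  have h5 := nsq_le (f z)
  have h6 := nsq_pos hne
  unfold nsq at h5 h6
  unfold fs W
  rw [← hT, mul_div_assoc', div_le_div_iff₀ (by positivity) h6]
  calc ‖wr f z‖ * ∑ l, ‖f z l‖ ^ 2 ≤ (2 * Real.sqrt (T / 2)) * ((n + 1) * ‖f z‖ ^ 2) := by
        gcongr
    _ = _ := by ring

theorem DCx.alg {n s r e d N : ℕ} {E : Set (MvPolynomial (Fin (n + 1)) ℂ)}
    (hN : ∀ U h, Arc (Ideal.span E) 1 s r e d U h → ∀ j l, ∃ m ≤ N,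
      AlgPair m U (fun z => h z j) fun z => h z l)
    {f : ℂ → Fin (n + 1) → ℂ} (hf : DCx E s r e d f) : DAlg E N f := by
  obtain ⟨hf, U, q, y, g, hU, ⟨z0, hz0⟩, hUS, hsys, hg, hcx, hcu⟩ := hf
  have hmem : ∀ z ∈ ball (0 : ℂ) 1, ∀ F ∈ Ideal.span E, (∃ m, F.IsHomogeneous m) →
      eval (f z) F = 0 := by
    intro z hz F hF _
    have h1 : Ideal.span E ≤ RingHom.ker (eval (f z)) := Ideal.span_le.2 fun F hF => hf.mem z hz F hF
    exact h1 hF
  obtain ⟨ζ, hζ, ε, hε, hb, hA⟩ := Bdd.arc isOpen_ball hf.ne hmem hU ⟨z0, hz0, hUS hz0⟩ hsys hg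
    hcx hcu
  refine ⟨hf, fun j k => ?_⟩
  obtain ⟨m, hm, h2⟩ := hN _ _ hA j k
  have h3 := (AlgP.of_pair (pair_scale (fun z hz => hg z (hb hz).1) h2)).le hm
  exact h3.extend isOpen_ball (convex_ball 0 1).isPreconnected isOpen_ball
    ⟨ζ, mem_ball_self hε⟩ (fun z hz => (hb hz).2) (hf.diff j) (hf.diff k)

/-! ### Rational curves -/

theorem algP_poly {N : ℕ} (hN : 1 ≤ N) (U : Set ℂ) {p q : Polynomial ℂ} (hp : p.natDegree ≤ N)
    (hq : q.natDegree ≤ N) : AlgP N U (fun z => p.eval z) fun z => q.eval z := by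
  obtain ⟨k, rfl⟩ : ∃ k, N = k + 1 := ⟨N - 1, by omega⟩
  by_cases h0 : p = 0 ∧ q = 0
  · obtain ⟨rfl, rfl⟩ := h0
    refine AlgP.of_poly (fun _ => 1) ⟨0, one_ne_zero⟩ (fun _ => by
      rw [Polynomial.natDegree_one]
      exact Nat.zero_le _) fun z _ => ?_
    refine Finset.sum_eq_zero fun β _ => ?_
    rw [Polynomial.eval_zero]
    rcases Nat.eq_zero_or_pos (β : ℕ) with h1 | h1
    · rw [h1, Nat.sub_zero, zero_pow (Nat.succ_ne_zero k), mul_zero]
    · rw [zero_pow (by omega), mul_zero, zero_mul]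
  · refine AlgP.of_poly (Fin.cons (-p) (Fin.cons q fun _ => 0)) ?_ ?_ fun z _ => ?_
    · by_contra hcon
      push Not at hcon
      apply h0
      have h1 := hcon 0
      have h2 := hcon 1
      rw [Fin.cons_zero] at h1
      have h3 : (1 : Fin (k + 1 + 1)) = Fin.succ 0 := rfl
      rw [h3, Fin.cons_succ, Fin.cons_zero] at h2
      exact ⟨neg_eq_zero.1 h1, h2⟩
    · intro β
      refine Fin.cases ?_ (fun β => Fin.cases ?_ (fun β => ?_) β) β
      · rw [Fin.cons_zero, Polynomial.natDegree_neg]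
        exact hp
      · rw [Fin.cons_succ, Fin.cons_zero]
        exact hq
      · rw [Fin.cons_succ, Fin.cons_succ, Polynomial.natDegree_zero]
        exact Nat.zero_le _
    · rw [Fin.sum_univ_succ, Fin.sum_univ_succ]
      simp only [Fin.cons_zero, Fin.cons_succ, Fin.val_zero, Fin.val_succ, pow_zero, mul_one,
        Nat.sub_zero, Polynomial.eval_neg, Polynomial.eval_zero, zero_mul, Finset.sum_const_zero,
        add_zero, zero_add, pow_one, Nat.add_sub_cancel]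
      rw [pow_succ]
      ring

/-- the discs in a rational curve -/
theorem rat_disc {E : Set (MvPolynomial (Fin (n + 1)) ℂ)} (hE : ∀ F ∈ E, ∃ a, F.IsHomogeneous a)
    {N : ℕ} {P : Fin (n + 1) → Polynomial ℂ} (hP : GmBdd (Ideal.span E) 1 N P) :
    ∃ P' : Fin (n + 1) → Polynomial ℂ, (∀ t, (fun j => (P' j).eval t) ≠ 0) ∧
      (∀ t, ∀ F ∈ E, eval (fun j => (P' j).eval t) F = 0) ∧
      (∃ s t, ¬ Same (fun j => (P' j).eval s) fun j => (P' j).eval t) ∧
      (∃ t, ∃ a b, (Polynomial.derivative (P' a)).eval t * (P' b).eval t ≠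
        (P' a).eval t * (Polynomial.derivative (P' b)).eval t) ∧
      (∀ s c : ℂ, DAlg E N fun z j => (P' j).eval (s + z * c)) ∧
      ∀ s r e d, N ≤ e → ∀ u c : ℂ, DCx E s r e d fun z j => (P' j).eval (u + z * c) := by
  obtain ⟨g, P', hg, hPP, hpr⟩ := hP.prim (isHomogeneous_one _ _)
  have hdeg : ∀ j, (P' j).natDegree ≤ N := by
    intro j
    by_cases h0 : P' j = 0
    · rw [h0, Polynomial.natDegree_zero]
      exact Nat.zero_le _
    · have h1 := hP.deg j
      rw [hPP j, Polynomial.natDegree_mul hg h0] at h1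
      omega
  have hne : ∀ t, (fun j => (P' j).eval t) ≠ 0 := by
    intro t h0
    obtain ⟨j, hj⟩ := hpr.ne t
    exact hj (congrFun h0 j)
  have hmem : ∀ t, ∀ F ∈ E, eval (fun j => (P' j).eval t) F = 0 := fun t F hF =>
    hpr.mem t F (Ideal.subset_span hF) (hE F hF)
  have hN1 : 1 ≤ N := by
    by_contra h0
    obtain ⟨s, t, j, k, -, -, h1⟩ := hpr.nc
    apply h1
    have h2 : ∀ j, (P' j).natDegree = 0 := fun j => by
      have := hdeg j
      omega
    rw [Polynomial.eq_C_of_natDegree_eq_zero (h2 j), Polynomial.eq_C_of_natDegree_eq_zero (h2 k)]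
    simp only [Polynomial.eval_C]
    ring
  have hR : ∀ s c : ℂ, RDisc E 1 fun z j => (P' j).eval (s + z * c) := fun s c =>
    ⟨fun j => ((P' j).differentiable.comp (by fun_prop :
      Differentiable ℂ fun z : ℂ => s + z * c)).differentiableOn, fun z _ => hne _,
      fun z _ => hmem _⟩
  have hcomp : ∀ (s c : ℂ) (j : Fin (n + 1)),
      ((P' j).comp (Polynomial.C s + Polynomial.X * Polynomial.C c)).natDegree ≤ N := by
    intro s c j
    refine Polynomial.natDegree_comp_le.trans ?_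
    have h1 : (Polynomial.C s + Polynomial.X * Polynomial.C c).natDegree ≤ 1 := by
      refine (Polynomial.natDegree_add_le _ _).trans (max_le ?_ ?_)
      · rw [Polynomial.natDegree_C]
        exact Nat.zero_le _
      · exact (Polynomial.natDegree_mul_C_le _ _).trans Polynomial.natDegree_X_le
    calc _ ≤ N * 1 := Nat.mul_le_mul (hdeg j) h1
      _ = N := mul_one _
  have heval : ∀ (s c z : ℂ) (j : Fin (n + 1)),
      ((P' j).comp (Polynomial.C s + Polynomial.X * Polynomial.C c)).eval z =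
        (P' j).eval (s + z * c) := by
    intro s c z j
    rw [Polynomial.eval_comp, Polynomial.eval_add, Polynomial.eval_C, Polynomial.eval_mul,
      Polynomial.eval_X, Polynomial.eval_C]
  refine ⟨P', hne, hmem, ?_, ?_, fun s c => ⟨hR s c, fun j k => ?_⟩, fun s r e d he u c =>
    ⟨hR u c, ?_⟩⟩
  · obtain ⟨s, t, j, k, -, -, h1⟩ := hpr.nc
    exact ⟨s, t, fun h2 => h1 (h2 j k)⟩
  · obtain ⟨s, t, j, k, -, -, h1⟩ := hpr.nc
    obtain ⟨a, b, hab⟩ := wr_of_nc ⟨s, t, j, k, h1⟩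
    by_contra hcon
    push Not at hcon
    apply hab
    apply Polynomial.funext
    intro t
    rw [Polynomial.eval_mul, Polynomial.eval_mul]
    exact hcon t a b
  · have h1 := algP_poly hN1 (ball 0 1) (hcomp s c j) (hcomp s c k)
    simp only [heval] at h1
    exact h1
  · refine ⟨ball 0 1, 1, fun _ _ _ => 0, fun _ => 1, isOpen_ball, ⟨0, mem_ball_self one_pos⟩,
      Subset.rfl, ⟨?_, fun z _ => ?_, fun l a => ?_⟩, fun _ _ => one_ne_zero, fun j => ?_, ?_⟩
    · rw [Polynomial.natDegree_one]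
      exact Nat.zero_le _
    · rw [Polynomial.eval_one]
      exact one_ne_zero
    · refine ⟨fun _ _ => 0, fun z _ => ?_⟩
      simp only [mul_zero, Finset.sum_const_zero]
      exact hasDerivAt_const z 0
    · obtain ⟨c', hc'⟩ := pev_poly ((P' j).comp (Polynomial.C u + Polynomial.X * Polynomial.C c))
        ((hcomp u c j).trans he) (Sum.inl true : Vx s r)
      refine ⟨c', fun z _ => ?_⟩
      rw [hc', one_mul]
      exact (heval u c z j).symm
    · obtain ⟨c', hc'⟩ := pev_C (e := e) (ι := Vx s r) (1 : ℂ)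
      refine ⟨c', fun z _ => ?_⟩
      rw [hc', map_one, mul_one]

theorem kob_zero {E : Set (MvPolynomial (Fin (n + 1)) ℂ)} {𝒟 : (ℂ → Fin (n + 1) → ℂ) → Prop}
    {P' : Fin (n + 1) → Polynomial ℂ} (hne : ∀ t, (fun j => (P' j).eval t) ≠ 0)
    (hmem : ∀ t, ∀ F ∈ E, eval (fun j => (P' j).eval t) F = 0)
    (hst : ∃ s t, ¬ Same (fun j => (P' j).eval s) fun j => (P' j).eval t)
    (h : ∀ s c : ℂ, 𝒟 fun z j => (P' j).eval (s + z * c)) : ¬ KobHyp E 𝒟 := by
  obtain ⟨s, t, hst⟩ := hst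
  intro hk
  have h1 := hk _ _ (hne s) (hne t) (hmem s) (hmem t) hst
  refine absurd h1 (not_lt.2 ?_)
  have h2 : ∀ x : ℝ, x ∈ Ioo (0 : ℝ) 1 → kob 𝒟 (fun j => (P' j).eval s) (fun j => (P' j).eval t) ≤
      ENNReal.ofReal (Real.log ((1 + x) / (1 - x))) := by
    intro x hx
    have hx0 : (x : ℂ) ≠ 0 := Complex.ofReal_ne_zero.2 hx.1.ne'
    have hnx : ‖(x : ℂ)‖ = x := by rw [Complex.norm_real, Real.norm_of_nonneg hx.1.le]
    have h3 : poin 0 (x : ℂ) = Real.log ((1 + x) / (1 - x)) := by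
      unfold poin psh
      rw [map_zero, zero_mul, sub_zero, sub_zero, div_one, hnx]
    have h4 : Chain 𝒟 (fun j => (P' j).eval s) (fun j => (P' j).eval t) (poin 0 (x : ℂ) + 0) := by
      refine Chain.cons (h s ((t - s) / x)) (by rw [norm_zero]; exact one_pos)
        (by rw [hnx]; exact hx.2) ?_ (Chain.nil ?_)
      · intro j k
        rw [zero_mul, add_zero]
        ring
      · intro j k
        have h5 : s + (x : ℂ) * ((t - s) / x) = t := by
          field_simp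
          ring
        rw [h5]
        ring
    rw [add_zero, h3] at h4
    exact iInf₂_le _ h4
  have h3 : Tendsto (fun x : ℝ => ENNReal.ofReal (Real.log ((1 + x) / (1 - x)))) (𝓝[>] 0)
      (𝓝 0) := by
    have h4 : ContinuousAt (fun x : ℝ => Real.log ((1 + x) / (1 - x))) 0 := by
      refine ContinuousAt.log ?_ (by norm_num)
      exact (continuousAt_const.add continuousAt_id).div (continuousAt_const.sub continuousAt_id)
        (by norm_num)
    have h5 := (ENNReal.continuous_ofReal.tendsto _).comp h4.tendsto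
    simp only [add_zero, sub_zero, div_one, Real.log_one, ENNReal.ofReal_zero] at h5
    exact h5.mono_left nhdsWithin_le_nhds
  refine ge_of_tendsto h3 ?_
  filter_upwards [Ioo_mem_nhdsGT (zero_lt_one (α := ℝ))] with x hx
  exact h2 x hx

theorem fs_unbdd {𝒟 : (ℂ → Fin (n + 1) → ℂ) → Prop}
    {P' : Fin (n + 1) → Polynomial ℂ} (hne : ∀ t, (fun j => (P' j).eval t) ≠ 0)
    (hw : ∃ t, ∃ a b, (Polynomial.derivative (P' a)).eval t * (P' b).eval t ≠
        (P' a).eval t * (Polynomial.derivative (P' b)).eval t)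
    (h : ∀ s c : ℂ, 𝒟 fun z j => (P' j).eval (s + z * c)) :
    ¬ ∃ C : ℝ, ∀ f, 𝒟 f → fs f 0 ≤ C := by
  rintro ⟨C, hC⟩
  obtain ⟨t, a, b, hab⟩ := hw
  set w : ℝ := W (fun z j => (P' j).eval z) t with hwdef
  have hw0 : 0 < w := by
    have h1 : 0 < ‖wr (fun z j => (P' j).eval z) t‖ := by
      rw [norm_pos_iff]
      intro h0
      have h2 := congrFun h0 (a, b)
      change (P' a).eval t * deriv (fun w => (P' b).eval w) t -
        (P' b).eval t * deriv (fun w => (P' a).eval w) t = 0 at h2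
      rw [Polynomial.deriv, Polynomial.deriv] at h2
      apply hab
      linear_combination -h2
    have h2 : 0 < ‖fun j => (P' j).eval t‖ := norm_pos_iff.2 (hne t)
    rw [hwdef]
    unfold W
    positivity
  have key : ∀ x : ℝ, 0 ≤ x → x * w ≤ 2 * (n + 1) * C := by
    intro x hx
    have h1 := hC _ (h t (x : ℂ))
    have h2 := le_fs (f := fun z j => (P' j).eval (t + z * (x : ℂ))) (z := 0) (by
      simp only [zero_mul, add_zero]
      exact hne t)
    have h3 := W_affine (f := fun z j => (P' j).eval z) (a := t) (b := (x : ℂ)) (w := 0)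
      (fun j => (P' j).differentiable _)
    rw [zero_mul, add_zero, Complex.norm_real, Real.norm_of_nonneg hx] at h3
    change W (fun z j => (P' j).eval (t + z * (x : ℂ))) 0 = _ at h3
    rw [h3] at h2
    refine h2.trans ?_
    exact mul_le_mul_of_nonneg_left h1 (by positivity)
  have hC0 : 0 ≤ 2 * ((n : ℝ) + 1) * C := by
    have := key 0 le_rfl
    linarith
  have h4 := key ((2 * (n + 1) * C + 1) / w) (by positivity)
  rw [div_mul_cancel₀ _ hw0.ne'] at h4
  linarith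

/-! ### The main theorem -/

/-- the derivatives at the centre of the discs of the class `𝒟` are bounded -/
def DerBdd (𝒟 : (ℂ → Fin (n + 1) → ℂ) → Prop) : Prop := ∃ C : ℝ, ∀ f, 𝒟 f → fs f 0 ≤ C

theorem alg_part {E : Set (MvPolynomial (Fin (n + 1)) ℂ)} (hE : ∀ F ∈ E, ∃ a, F.IsHomogeneous a)
    {m : ℕ} (hno : ∀ P, ¬ GmBdd (Ideal.span E) 1 ((n + 1) * m) P)
    {𝒟 : (ℂ → Fin (n + 1) → ℂ) → Prop} (h𝒟 : ∀ f, 𝒟 f → DAlg E m f) :
    KobHyp E 𝒟 ∧ DerBdd 𝒟 := by
  obtain ⟨C, hC⟩ := disc_bound n m E hE hno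
  have hC' : ∀ f, DAlg E m f → W f 0 ≤ C := fun f hf => hC f hf.1 hf.2
  obtain ⟨K, hK, hlip⟩ := DAlg.lip hC'
  refine ⟨kobHyp_of_lip (fun f hf => (h𝒟 f hf).1) hK fun f hf => hlip f (h𝒟 f hf),
    (n + 1) * C, fun f hf => ?_⟩
  have hf' := h𝒟 f hf
  refine (fs_le (hf'.1.ne 0 (mem_ball_self one_pos))).trans ?_
  exact mul_le_mul_of_nonneg_left (hC' f hf') (by positivity)

/-- **Uniform version.** -/
theorem cx_part (n D s r e d : ℕ) : ∃ N, ∀ E : Set (MvPolynomial (Fin (n + 1)) ℂ),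
    (∀ F ∈ E, ∃ a ≤ D, F.IsHomogeneous a) → (∀ P, ¬ GmBdd (Ideal.span E) 1 N P) →
      KobHyp E (DCx E s r e d) ∧ DerBdd (DCx E s r e d) := by
  obtain ⟨N, hN⟩ := fam_none n D s r e d
  refine ⟨(n + 1) * N, fun E hE hno => ?_⟩
  have hle : N ≤ (n + 1) * N := Nat.le_mul_of_pos_left _ (by omega)
  obtain ⟨-, -, h1⟩ := hN E 1 ⟨hE, 0, Nat.zero_le _, isHomogeneous_one _ _⟩ fun P hP =>
    hno P ⟨fun j => (hP.deg j).trans hle, hP.mem, hP.off, hP.nc⟩
  have hom : ∀ F ∈ E, ∃ a, F.IsHomogeneous a := fun F hF => by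
    obtain ⟨a, -, ha⟩ := hE F hF
    exact ⟨a, ha⟩
  exact alg_part hom hno fun f hf => DCx.alg h1 hf

/-- All integral closed subvarieties with more than one point of the projective variety with the
equations `E` are of general type. -/
def AllGeneral (E : Set (MvPolynomial (Fin (n + 1)) ℂ)) : Prop :=
  ∀ J : Ideal (MvPolynomial (Fin (n + 1)) ℂ), J.IsPrime → Ideal.span E ≤ J →
    (∃ v w : Fin (n + 1) → ℂ, (∀ F ∈ J, (∃ d, F.IsHomogeneous d) → eval v F = 0) ∧
      (∀ F ∈ J, (∃ d, F.IsHomogeneous d) → eval w F = 0) ∧ ∃ i j, v i * w j ≠ v j * w i) →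
    ∃ (K : Type) (_ : Field K) (_ : Algebra ℂ K) (w : ℕ) (y : Fin (n + 1) → K),
      FunField J 1 K w y ∧ LogGeneralType ℂ K w (OffQ 1 0 y)

theorem no_curves_of_general {D : ℕ} {E : Set (MvPolynomial (Fin (n + 1)) ℂ)}
    (hE : ∀ F ∈ E, ∃ a ≤ D, F.IsHomogeneous a) (h : AllGeneral E) (N : ℕ)
    (P : Fin (n + 1) → Polynomial ℂ) : ¬ GmBdd (Ideal.span E) 1 N P := by
  intro hP
  obtain ⟨B, hB⟩ := spec_tfae n D
  obtain ⟨-, h1⟩ := hB E 1 1 0 hE (Nat.zero_le _) (isHomogeneous_one _ _)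
    ⟨0, Nat.zero_le _, isHomogeneous_one _ _⟩
  have h2 := h1 (Or.inr (Or.inr fun J hJ hEJ _ _ hvw => by
    obtain ⟨v, w, hv, hw, -, -, hij⟩ := hvw
    exact h J hJ hEJ ⟨v, w, hv, hw, hij⟩))
  have h3 := h2 N P hP 0
  rw [map_one] at h3
  exact one_ne_zero h3

theorem kob_tfae {D : ℕ} {E : Set (MvPolynomial (Fin (n + 1)) ℂ)}
    (hE : ∀ F ∈ E, ∃ a ≤ D, F.IsHomogeneous a) :
    List.TFAE [∀ N P, ¬ GmBdd (Ideal.span E) 1 N P,
      ∀ m, KobHyp E (DAlg E m), ∀ m, DerBdd (DAlg E m),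
      ∀ s r e d, KobHyp E (DCx E s r e d), ∀ s r e d, DerBdd (DCx E s r e d)] := by
  have hom : ∀ F ∈ E, ∃ a, F.IsHomogeneous a := fun F hF => by
    obtain ⟨a, -, ha⟩ := hE F hF
    exact ⟨a, ha⟩
  tfae_have 1 → 2 := fun h m => (alg_part hom (h _) fun _ hf => hf).1
  tfae_have 1 → 3 := fun h m => (alg_part hom (h _) fun _ hf => hf).2
  tfae_have 1 → 4 := by
    intro h s r e d
    obtain ⟨N, hN⟩ := cx_part n D s r e d
    exact (hN E hE (h N)).1
  tfae_have 1 → 5 := by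
    intro h s r e d
    obtain ⟨N, hN⟩ := cx_part n D s r e d
    exact (hN E hE (h N)).2
  tfae_have 2 → 1 := by
    intro h N P hP
    obtain ⟨P', h1, h2, h3, h4, h5, h6⟩ := rat_disc hom hP
    exact kob_zero h1 h2 h3 h5 (h N)
  tfae_have 3 → 1 := by
    intro h N P hP
    obtain ⟨P', h1, h2, h3, h4, h5, h6⟩ := rat_disc hom hP
    exact fs_unbdd h1 h4 h5 (h N)
  tfae_have 4 → 1 := by
    intro h N P hP
    obtain ⟨P', h1, h2, h3, h4, h5, h6⟩ := rat_disc hom hP
    exact kob_zero h1 h2 h3 (h6 0 0 N 0 le_rfl) (h 0 0 N 0)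
  tfae_have 5 → 1 := by
    intro h N P hP
    obtain ⟨P', h1, h2, h3, h4, h5, h6⟩ := rat_disc hom hP
    exact fs_unbdd h1 h4 (h6 0 0 N 0 le_rfl) (h 0 0 N 0)
  tfae_finish

end Pool.Agent.V1153.KB
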