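import Mathlib

/-!
The size of the derivative of a holomorphic map from a disc to projective space, and rescaling.
-/

set_option autoImplicit false

namespace Pool.Agent.V1153.KB

open Filter Topology Set Metric

variable {n : ℕ}

/-- the Wronskians of the homogeneous coordinates -/
noncomputable def wr (f : ℂ → Fin (n + 1) → ℂ) (z : ℂ) : Fin (n + 1) × Fin (n + 1) → ℂ := fun p =>
  f z p.1 * deriv (fun w => f w p.2) z - f z p.2 * deriv (fun w => f w p.1) z

/-- the size of the derivative -/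
noncomputable def W (f : ℂ → Fin (n + 1) → ℂ) (z : ℂ) : ℝ := ‖wr f z‖ / ‖f z‖ ^ 2

theorem W_nonneg (f : ℂ → Fin (n + 1) → ℂ) (z : ℂ) : 0 ≤ W f z := by
  unfold W
  positivity

theorem W_cont {f : ℂ → Fin (n + 1) → ℂ} {U : Set ℂ} (hU : IsOpen U)
    (hf : ∀ j, DifferentiableOn ℂ (fun z => f z j) U) (hne : ∀ z ∈ U, f z ≠ 0) :
    ContinuousOn (W f) U := by
  have h1 : ContinuousOn f U := continuousOn_pi.2 fun j => (hf j).continuousOn
  have h2 : ContinuousOn (wr f) U := by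
    refine continuousOn_pi.2 fun p => ?_
    have h3 : ∀ j, ContinuousOn (deriv fun z => f z j) U := fun j =>
      ((hf j).deriv hU).continuousOn
    exact ((hf p.1).continuousOn.mul (h3 p.2)).sub ((hf p.2).continuousOn.mul (h3 p.1))
  refine h2.norm.div (h1.norm.pow 2) fun z hz => ?_
  exact pow_ne_zero _ (norm_ne_zero_iff.2 (hne z hz))

theorem W_affine {f : ℂ → Fin (n + 1) → ℂ} {a b w : ℂ}
    (hf : ∀ j, DifferentiableAt ℂ (fun z => f z j) (a + w * b)) :
    W (fun w => f (a + w * b)) w = ‖b‖ * W f (a + w * b) := by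
  have h1 : ∀ j, deriv (fun w => f (a + w * b) j) w = deriv (fun z => f z j) (a + w * b) * b := by
    intro j
    have h2 : HasDerivAt (fun w : ℂ => a + w * b) b w := by
      have h3 := ((hasDerivAt_id w).mul_const b).const_add a
      simpa using h3
    exact ((hf j).hasDerivAt.comp w h2).deriv
  have h2 : wr (fun w => f (a + w * b)) w = b • wr f (a + w * b) := by
    funext p
    change f (a + w * b) p.1 * deriv (fun w => f (a + w * b) p.2) w -
      f (a + w * b) p.2 * deriv (fun w => f (a + w * b) p.1) w = _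
    rw [h1, h1]
    change _ = b * (f (a + w * b) p.1 * deriv (fun z => f z p.2) (a + w * b) -
      f (a + w * b) p.2 * deriv (fun z => f z p.1) (a + w * b))
    ring
  unfold W
  rw [h2, norm_smul, mul_div_assoc]

/-- **Rescaling.** -/
theorem hofer {f : ℂ → Fin (n + 1) → ℂ} (hf : ∀ j, DifferentiableOn ℂ (fun z => f z j) (ball 0 1))
    (hne : ∀ z ∈ ball (0 : ℂ) 1, f z ≠ 0) (h0 : 0 < W f 0) :
    ∃ (a : ℂ) (m : ℝ), 0 < m ∧ (∀ w ∈ ball (0 : ℂ) (W f 0 / 4), a + w * (m⁻¹ : ℝ) ∈ ball (0 : ℂ) 1) ∧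
      W (fun w => f (a + w * (m⁻¹ : ℝ))) 0 = 1 ∧
      ∀ w ∈ ball (0 : ℂ) (W f 0 / 4), W (fun w => f (a + w * (m⁻¹ : ℝ))) w ≤ 2 := by
  have hsub : closedBall (0 : ℂ) (1 / 2) ⊆ ball 0 1 := closedBall_subset_ball (by norm_num)
  have hW := (W_cont isOpen_ball hf hne).mono hsub
  have hh : ContinuousOn (fun z : ℂ => (1 / 2 - ‖z‖) * W f z) (closedBall 0 (1 / 2)) :=
    (continuousOn_const.sub continuousOn_id.norm).mul hW
  obtain ⟨a, ha, hmax⟩ := (isCompact_closedBall (0 : ℂ) (1 / 2)).exists_isMaxOn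
    ⟨0, mem_closedBall_self (by norm_num)⟩ hh
  have h1 : (1 / 2 - ‖(0 : ℂ)‖) * W f 0 ≤ (1 / 2 - ‖a‖) * W f a :=
    hmax (mem_closedBall_self (by norm_num))
  rw [norm_zero, sub_zero] at h1
  rw [mem_closedBall_zero_iff] at ha
  set s : ℝ := 1 / 2 - ‖a‖ with hs
  set m : ℝ := W f a with hm
  have hs0 : 0 ≤ s := by linarith
  have hm0 : 0 ≤ m := W_nonneg f a
  have hsm : 0 < s * m := by linarith
  have hs1 : 0 < s := by
    rcases hs0.lt_or_eq with h | h
    · exact h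
    · rw [← h, zero_mul] at hsm
      exact absurd hsm (lt_irrefl _)
  have hm1 : 0 < m := by
    rcases hm0.lt_or_eq with h | h
    · exact h
    · rw [← h, mul_zero] at hsm
      exact absurd hsm (lt_irrefl _)
  have hnm : ‖((m⁻¹ : ℝ) : ℂ)‖ = m⁻¹ := by
    rw [Complex.norm_real, Real.norm_of_nonneg (inv_nonneg.2 hm0)]
  have hw : ∀ w ∈ ball (0 : ℂ) (W f 0 / 4), ‖w * (m⁻¹ : ℝ)‖ < s / 2 := by
    intro w hw
    rw [mem_ball_zero_iff] at hw
    rw [norm_mul, hnm, ← div_eq_mul_inv, div_lt_iff₀ hm1]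
    linarith
  have hin : ∀ w ∈ ball (0 : ℂ) (W f 0 / 4), ‖a + w * (m⁻¹ : ℝ)‖ ≤ 1 / 2 - s / 2 := by
    intro w hw'
    have h3 := hw w hw'
    have h4 := norm_add_le a (w * (m⁻¹ : ℝ))
    linarith
  have hball : ∀ w ∈ ball (0 : ℂ) (W f 0 / 4), a + w * (m⁻¹ : ℝ) ∈ ball (0 : ℂ) 1 := by
    intro w hw'
    rw [mem_ball_zero_iff]
    have := hin w hw'
    linarith
  have hd : ∀ w ∈ ball (0 : ℂ) (W f 0 / 4), ∀ j,
      DifferentiableAt ℂ (fun z => f z j) (a + w * (m⁻¹ : ℝ)) := fun w hw' j =>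
    (hf j).differentiableAt (isOpen_ball.mem_nhds (hball w hw'))
  have h00 : (0 : ℂ) ∈ ball (0 : ℂ) (W f 0 / 4) := mem_ball_self (by linarith)
  refine ⟨a, m, hm1, hball, ?_, fun w hw' => ?_⟩
  · rw [W_affine (hd 0 h00), zero_mul, add_zero, hnm, ← hm]
    exact inv_mul_cancel₀ hm1.ne'
  · rw [W_affine (hd w hw'), hnm]
    have h5 : (1 / 2 - ‖a + w * (m⁻¹ : ℝ)‖) * W f (a + w * (m⁻¹ : ℝ)) ≤ s * m :=
      hmax (mem_closedBall_zero_iff.2 (by
        have := hin w hw'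
        linarith))
    have h6 : s / 2 * W f (a + w * (m⁻¹ : ℝ)) ≤ s * m := by
      refine le_trans (mul_le_mul_of_nonneg_right ?_ (W_nonneg _ _)) h5
      have := hin w hw'
      linarith
    have h7 : W f (a + w * (m⁻¹ : ℝ)) ≤ 2 * m := by
      have h8 : s * W f (a + w * (m⁻¹ : ℝ)) ≤ s * (2 * m) := by linarith
      exact le_of_mul_le_mul_left h8 hs1
    rw [inv_mul_le_iff₀ hm1]
    linarith

end Pool.Agent.V1153.KB
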