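import Pool.Agent.V1153.KB.Main

/-!
The Kobayashi pseudodistance of a class of discs.
-/

set_option autoImplicit false

namespace Pool.Agent.V1153.KB

open Filter Topology Set Metric MvPolynomial ComplexConjugate
open Pool.Agent.V1153.UG
open scoped ENNReal

variable {n : ℕ}

/-! ### The unit disc -/

/-- the pseudohyperbolic distance -/
noncomputable def psh (a b : ℂ) : ℝ := ‖(b - a) / (1 - conj a * b)‖

/-- the Poincaré distance of two points of the unit disc -/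
noncomputable def poin (a b : ℂ) : ℝ := Real.log ((1 + psh a b) / (1 - psh a b))

theorem nsq_id (a w : ℂ) : ‖1 + conj a * w‖ ^ 2 - ‖w + a‖ ^ 2 = (1 - ‖a‖ ^ 2) * (1 - ‖w‖ ^ 2) := by
  rw [← Complex.normSq_eq_norm_sq, ← Complex.normSq_eq_norm_sq, ← Complex.normSq_eq_norm_sq,
    ← Complex.normSq_eq_norm_sq]
  simp only [Complex.normSq_apply, Complex.add_re, Complex.add_im, Complex.mul_re, Complex.mul_im,
    Complex.conj_re, Complex.conj_im, Complex.one_re, Complex.one_im]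
  ring

theorem den_ne {a w : ℂ} (ha : ‖a‖ < 1) (hw : ‖w‖ < 1) : 1 + conj a * w ≠ 0 := by
  intro h0
  have h1 := nsq_id a w
  rw [h0, norm_zero] at h1
  have h2 : 0 < (1 - ‖a‖ ^ 2) * (1 - ‖w‖ ^ 2) := by
    apply mul_pos <;> nlinarith [norm_nonneg a, norm_nonneg w]
  nlinarith [sq_nonneg ‖w + a‖]

theorem mob_lt {a w : ℂ} (ha : ‖a‖ < 1) (hw : ‖w‖ < 1) : ‖(w + a) / (1 + conj a * w)‖ < 1 := by
  have h0 : 0 < ‖1 + conj a * w‖ := norm_pos_iff.2 (den_ne ha hw)
  rw [norm_div, div_lt_one h0]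
  have h1 := nsq_id a w
  have h2 : 0 < (1 - ‖a‖ ^ 2) * (1 - ‖w‖ ^ 2) := by
    apply mul_pos <;> nlinarith [norm_nonneg a, norm_nonneg w]
  exact (pow_lt_pow_iff_left₀ (norm_nonneg _) (norm_nonneg _) two_ne_zero).1 (by linarith)

theorem psh_lt {a b : ℂ} (ha : ‖a‖ < 1) (hb : ‖b‖ < 1) : psh a b < 1 := by
  have h1 := mob_lt (a := -a) (w := b) (by rwa [norm_neg]) hb
  unfold psh
  rw [map_neg, neg_mul, ← sub_eq_add_neg, ← sub_eq_add_neg] at h1
  exact h1

theorem psh_le_poin {a b : ℂ} (ha : ‖a‖ < 1) (hb : ‖b‖ < 1) : psh a b ≤ poin a b := by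
  have h1 := psh_lt ha hb
  have h0 : 0 ≤ psh a b := norm_nonneg _
  set t := psh a b with ht
  unfold poin
  rw [← ht]
  have h2 : 0 < (1 + t) / (1 - t) := by
    apply div_pos <;> linarith
  have h3 := Real.one_sub_inv_le_log_of_pos h2
  refine le_trans ?_ h3
  rw [inv_div, le_sub_iff_add_le, ← le_sub_iff_add_le', div_le_iff₀ (by linarith)]
  nlinarith

/-! ### Chains -/

/-- the same point of the projective space -/
def Same (x y : Fin (n + 1) → ℂ) : Prop := ∀ j k, x j * y k = x k * y j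

/-- There is a chain of length `ℓ` of discs of the class `𝒟` which joins the points `x` and `y`. -/
inductive Chain (𝒟 : (ℂ → Fin (n + 1) → ℂ) → Prop) :
    (Fin (n + 1) → ℂ) → (Fin (n + 1) → ℂ) → ℝ → Prop
  | nil {x y : Fin (n + 1) → ℂ} : Same x y → Chain 𝒟 x y 0
  | cons {x y : Fin (n + 1) → ℂ} {f : ℂ → Fin (n + 1) → ℂ} {a b : ℂ} {ℓ : ℝ} :
      𝒟 f → ‖a‖ < 1 → ‖b‖ < 1 → Same x (f a) → Chain 𝒟 (f b) y ℓ → Chain 𝒟 x y (poin a b + ℓ)

/-- The Kobayashi pseudodistance given by the discs of the class `𝒟`: the infimum of the lengths of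
the chains of discs. -/
noncomputable def kob (𝒟 : (ℂ → Fin (n + 1) → ℂ) → Prop) (x y : Fin (n + 1) → ℂ) : ℝ≥0∞ :=
  ⨅ (ℓ : ℝ) (_ : Chain 𝒟 x y ℓ), ENNReal.ofReal ℓ

theorem Chain.mono {𝒟 𝒟' : (ℂ → Fin (n + 1) → ℂ) → Prop} (h : ∀ f, 𝒟 f → 𝒟' f)
    {x y : Fin (n + 1) → ℂ} {ℓ : ℝ} (hc : Chain 𝒟 x y ℓ) : Chain 𝒟' x y ℓ := by
  induction hc with
  | nil h1 => exact Chain.nil h1
  | cons h1 h2 h3 h4 _ ih => exact Chain.cons (h _ h1) h2 h3 h4 ih

theorem kob_anti {𝒟 𝒟' : (ℂ → Fin (n + 1) → ℂ) → Prop} (h : ∀ f, 𝒟 f → 𝒟' f)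
    (x y : Fin (n + 1) → ℂ) : kob 𝒟' x y ≤ kob 𝒟 x y :=
  le_iInf₂ fun ℓ hℓ => iInf₂_le ℓ (hℓ.mono h)

/-- The Kobayashi pseudodistance of the class `𝒟` is a distance on the projective variety with the
equations `E`. -/
def KobHyp (E : Set (MvPolynomial (Fin (n + 1)) ℂ)) (𝒟 : (ℂ → Fin (n + 1) → ℂ) → Prop) : Prop :=
  ∀ x y : Fin (n + 1) → ℂ, x ≠ 0 → y ≠ 0 → (∀ F ∈ E, eval x F = 0) → (∀ F ∈ E, eval y F = 0) →
    ¬ Same x y → 0 < kob 𝒟 x y

theorem chain_bound {E : Set (MvPolynomial (Fin (n + 1)) ℂ)} {𝒟 : (ℂ → Fin (n + 1) → ℂ) → Prop}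
    (h𝒟 : ∀ f, 𝒟 f → RDisc E 1 f) {K : ℝ} (hK : 0 ≤ K)
    (hlip : ∀ f, 𝒟 f → ∀ a b : ℂ, ‖a‖ < 1 → ‖b‖ < 1 → ‖pm (f b) - pm (f a)‖ ≤ K * psh a b)
    {x y : Fin (n + 1) → ℂ} {ℓ : ℝ} (hc : Chain 𝒟 x y ℓ) (hx : x ≠ 0) (hy : y ≠ 0) :
    ‖pm x - pm y‖ ≤ K * ℓ := by
  induction hc with
  | nil h1 => rw [pm_congr hx hy h1, sub_self, norm_zero, mul_zero]
  | @cons x y f a b ℓ h1 h2 h3 h4 _ ih =>
    have hfa : f a ≠ 0 := (h𝒟 f h1).ne a (mem_ball_zero_iff.2 h2)
    have hfb : f b ≠ 0 := (h𝒟 f h1).ne b (mem_ball_zero_iff.2 h3)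
    have h5 := ih hfb hy
    have h6 := hlip f h1 a b h2 h3
    rw [pm_congr hx hfa h4]
    have h7 : ‖pm (f a) - pm y‖ ≤ ‖pm (f b) - pm (f a)‖ + ‖pm (f b) - pm y‖ := by
      have h8 : pm (f a) - pm y = -(pm (f b) - pm (f a)) + (pm (f b) - pm y) := by abel
      rw [h8]
      refine (norm_add_le _ _).trans ?_
      rw [norm_neg]
    have h8 : K * psh a b ≤ K * poin a b := mul_le_mul_of_nonneg_left (psh_le_poin h2 h3) hK
    rw [mul_add]
    linarith

theorem kobHyp_of_lip {E : Set (MvPolynomial (Fin (n + 1)) ℂ)}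
    {𝒟 : (ℂ → Fin (n + 1) → ℂ) → Prop} (h𝒟 : ∀ f, 𝒟 f → RDisc E 1 f) {K : ℝ} (hK : 0 ≤ K)
    (hlip : ∀ f, 𝒟 f → ∀ a b : ℂ, ‖a‖ < 1 → ‖b‖ < 1 → ‖pm (f b) - pm (f a)‖ ≤ K * psh a b) :
    KobHyp E 𝒟 := by
  intro x y hx hy _ _ hxy
  have h1 : 0 < ‖pm x - pm y‖ := by
    rw [norm_pos_iff, sub_ne_zero]
    intro h2
    exact hxy fun j k => pm_inj hx hy h2 j k
  have h2 : (0 : ℝ≥0∞) < ENNReal.ofReal (‖pm x - pm y‖ / (K + 1)) :=
    ENNReal.ofReal_pos.2 (div_pos h1 (by linarith))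
  refine lt_of_lt_of_le h2 (le_iInf₂ fun ℓ hℓ => ENNReal.ofReal_le_ofReal ?_)
  have h3 := chain_bound h𝒟 hK hlip hℓ hx hy
  rw [div_le_iff₀ (by linarith)]
  have h4 : 0 ≤ ℓ := by
    have h5 : 0 < K * ℓ := lt_of_lt_of_le h1 h3
    by_contra hc
    push Not at hc
    nlinarith
  nlinarith

/-! ### Algebraic discs -/

/-- the holomorphic maps from the unit disc to the projective variety with the equations `E` all of
whose quotients of coordinates satisfy algebraic equations of bidegree at most `(m, m)` -/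
def DAlg (E : Set (MvPolynomial (Fin (n + 1)) ℂ)) (m : ℕ) (f : ℂ → Fin (n + 1) → ℂ) : Prop :=
  RDisc E 1 f ∧ AlgM m 1 f

theorem DAlg.mob {E : Set (MvPolynomial (Fin (n + 1)) ℂ)} {m : ℕ} {f : ℂ → Fin (n + 1) → ℂ}
    (hf : DAlg E m f) {a : ℂ} (ha : ‖a‖ < 1) :
    DAlg E m fun w => f ((w + a) / (1 + conj a * w)) := by
  have hin : ∀ w ∈ ball (0 : ℂ) 1, (w + a) / (1 + conj a * w) ∈ ball (0 : ℂ) 1 := fun w hw =>
    mem_ball_zero_iff.2 (mob_lt ha (mem_ball_zero_iff.1 hw))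
  have hden : ∀ w ∈ ball (0 : ℂ) 1, 1 + conj a * w ≠ 0 := fun w hw =>
    den_ne ha (mem_ball_zero_iff.1 hw)
  have hd : DifferentiableOn ℂ (fun w => (w + a) / (1 + conj a * w)) (ball 0 1) := by
    refine DifferentiableOn.div ?_ ?_ hden
    · exact differentiableOn_id.add (differentiableOn_const _)
    · exact (differentiableOn_const _).add ((differentiableOn_const _).mul differentiableOn_id)
  refine ⟨⟨fun j => (hf.1.diff j).comp hd hin, fun z hz => hf.1.ne _ (hin z hz),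
    fun z hz => hf.1.mem _ (hin z hz)⟩, fun j k => ?_⟩
  refine (hf.2 j k).comp (s := 1) (t := a) (u := conj a) (v := 1)
    (φ := fun w => (w + a) / (1 + conj a * w)) (infinite_ball one_pos) hin (fun x hx y hy hxy => ?_)
    (fun w hw => by
      have := hden w hw
      rwa [add_comm] at this) fun w hw => ?_
  · have h1 : (x + a) / (1 + conj a * x) = (y + a) / (1 + conj a * y) := hxy
    rw [div_eq_div_iff (hden x hx) (hden y hy)] at h1
    have h2 : (x - y) * (1 - conj a * a) = 0 := by linear_combination h1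
    have h3 : 1 - conj a * a ≠ 0 := by
      intro h4
      have h5 := nsq_id a (-a)
      rw [mul_neg, ← sub_eq_add_neg, h4, norm_zero, neg_add_cancel, norm_zero, norm_neg] at h5
      have h6 : 0 < (1 - ‖a‖ ^ 2) * (1 - ‖a‖ ^ 2) := by
        apply mul_pos <;> nlinarith [norm_nonneg a]
      linarith
    exact sub_eq_zero.1 ((mul_eq_zero.1 h2).resolve_right h3)
  · have h1 : (w + a) / (1 + conj a * w) * (conj a * w + 1) = w + a := by
      rw [add_comm (conj a * w) 1, div_mul_cancel₀ _ (hden w hw)]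
    rw [one_mul]
    exact h1

/-- a bound for the derivatives at the centre gives a Lipschitz bound -/
theorem DAlg.lip {E : Set (MvPolynomial (Fin (n + 1)) ℂ)} {m : ℕ} {C : ℝ}
    (hC : ∀ f, DAlg E m f → W f 0 ≤ C) :
    ∃ K : ℝ, 0 ≤ K ∧ ∀ f, DAlg E m f → ∀ a b : ℂ, ‖a‖ < 1 → ‖b‖ < 1 →
      ‖pm (f b) - pm (f a)‖ ≤ K * psh a b := by
  set C' : ℝ := max C 0 with hC'
  have hC0 : 0 ≤ C' := le_max_right _ _
  have hC1 : ∀ f, DAlg E m f → W f 0 ≤ C' := fun f hf => (hC f hf).trans (le_max_left _ _)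
  -- the derivative on the smaller disc
  have h2 : ∀ f, DAlg E m f → ∀ z ∈ ball (0 : ℂ) (1 / 2), W f z ≤ 2 * C' := by
    intro f hf z hz
    rw [mem_ball_zero_iff] at hz
    have hin : ∀ w ∈ ball (0 : ℂ) 1, z + w * (1 / 2) ∈ ball (0 : ℂ) 1 := by
      intro w hw
      rw [mem_ball_zero_iff] at hw ⊢
      refine (norm_add_le _ _).trans_lt ?_
      rw [norm_mul, norm_div, norm_one, Complex.norm_two]
      linarith
    have h3 : DAlg E m fun w => f (z + w * (1 / 2)) := by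
      refine ⟨⟨fun j => ?_, fun w hw => hf.1.ne _ (hin w hw), fun w hw => hf.1.mem _ (hin w hw)⟩,
        fun j k => ?_⟩
      · refine (hf.1.diff j).comp ?_ hin
        exact (differentiableOn_const _).add (differentiableOn_id.mul (differentiableOn_const _))
      · refine (hf.2 j k).comp (s := 1 / 2) (t := z) (u := 0) (v := 1)
          (φ := fun w => z + w * (1 / 2)) (infinite_ball one_pos) hin (fun x _ y _ hxy => ?_)
          (fun w _ => by rw [zero_mul, zero_add]; exact one_ne_zero) fun w _ => by ring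
        have h4 : x * (1 / 2) = y * (1 / 2) := add_left_cancel hxy
        exact mul_right_cancel₀ (by norm_num) h4
    have h4 := hC1 _ h3
    rw [W_affine (fun j => (hf.1.diff j).differentiableAt (isOpen_ball.mem_nhds
      (hin 0 (mem_ball_self one_pos))))] at h4
    rw [zero_mul, add_zero, norm_div, norm_one, Complex.norm_two] at h4
    linarith
  refine ⟨4 + 4 * (n + 1) * C', by positivity, fun f hf a b ha hb => ?_⟩
  set t : ℂ := (b - a) / (1 - conj a * b) with ht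
  have htp : psh a b = ‖t‖ := rfl
  have ht1 : ‖t‖ < 1 := psh_lt ha hb
  have hg := hf.mob ha
  have hden : 1 - conj a * b ≠ 0 := by
    have := den_ne (a := -a) (w := b) (by rwa [norm_neg]) hb
    rwa [map_neg, neg_mul, ← sub_eq_add_neg] at this
  have hga : f ((0 + a) / (1 + conj a * 0)) = f a := by
    rw [zero_add, mul_zero, add_zero, div_one]
  have hgb : f ((t + a) / (1 + conj a * t)) = f b := by
    congr 1
    have hden2 := den_ne ha ht1
    have htd : t * (1 - conj a * b) = b - a := div_mul_cancel₀ _ hden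
    rw [div_eq_iff hden2]
    linear_combination htd
  rw [htp]
  by_cases ht2 : ‖t‖ < 1 / 2
  · have h3 := pm_lip (f := fun w => f ((w + a) / (1 + conj a * w))) (U := ball 0 (1 / 2))
      isOpen_ball (convex_ball 0 (1 / 2))
      (fun j => (hg.1.diff j).mono (ball_subset_ball (by norm_num)))
      (fun z hz => hg.1.ne z (ball_subset_ball (by norm_num) hz)) (h2 _ hg)
      (mem_ball_self (by norm_num)) (mem_ball_zero_iff.2 ht2)
    simp only [hga, hgb, sub_zero] at h3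
    refine h3.trans ?_
    have h4 : 2 * ((n : ℝ) + 1) * (2 * C') ≤ 4 + 4 * (n + 1) * C' := by nlinarith
    exact mul_le_mul_of_nonneg_right h4 (norm_nonneg _)
  · push Not at ht2
    have h3 : ‖pm (f b) - pm (f a)‖ ≤ 2 := by
      refine (norm_sub_le _ _).trans ?_
      have h4 := norm_pm_le (hf.1.ne a (mem_ball_zero_iff.2 ha))
      have h5 := norm_pm_le (hf.1.ne b (mem_ball_zero_iff.2 hb))
      linarith
    have h6 : (0 : ℝ) ≤ 4 * (n + 1) * C' := by positivity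
    nlinarith

end Pool.Agent.V1153.KB
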