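import Pool.Agent.V1153.KB.Alg
import Pool.Agent.V1153.UG.Loc
import Pool.Agent.V1153.UG.Vec

/-!
Limits of algebraic functions on growing discs are rational.
-/

set_option autoImplicit false

namespace Pool.Agent.V1153.KB

open Filter Topology Set Metric
open Pool.Agent.V1153.UG Pool.Agent.Y377.IL
open scoped PowerSeries.WithPiTopology

/-- the function `z` -/
noncomputable def idA : An 0 := ⟨fun z => z, analyticAt_id⟩

theorem TS_id : TS 0 idA = PowerSeries.X := by
  refine PowerSeries.derivative.ext ?_ ?_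
  · rw [← TS_dl]
    have h1 : dl idA = 1 := Subtype.ext (by
      funext z
      exact deriv_id z)
    rw [h1, map_one]
    ext k
    rw [PowerSeries.coeff_derivative, PowerSeries.coeff_X, PowerSeries.coeff_one]
    by_cases hk : k = 0
    · subst hk
      simp
    · rw [if_neg hk, if_neg (by omega), zero_mul]
  · rw [TS_cc, PowerSeries.constantCoeff_X]
    rfl

theorem aeval_X_coe (p : Polynomial ℂ) :
    Polynomial.aeval (PowerSeries.X : PowerSeries ℂ) p = (p : PowerSeries ℂ) := by
  induction p using Polynomial.induction_on' with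
  | add p q hp hq => rw [map_add, hp, hq, Polynomial.coe_add]
  | monomial k a =>
    rw [Polynomial.aeval_monomial, Polynomial.coe_monomial, PowerSeries.monomial_eq_mk,
      PowerSeries.algebraMap_apply, Algebra.algebraMap_self, RingHom.id_apply,
      PowerSeries.X_pow_eq]
    ext l
    rw [PowerSeries.coeff_C_mul, PowerSeries.coeff_monomial, PowerSeries.coeff_mk]
    split_ifs <;> simp

/-- the function given by a polynomial -/
noncomputable def polA (p : Polynomial ℂ) : An 0 := ⟨fun z => p.eval z, p.differentiable.analyticAt 0⟩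

theorem TS_pol (p : Polynomial ℂ) : TS 0 (polA p) = (p : PowerSeries ℂ) := by
  have h1 : polA p = Polynomial.aeval idA p := by
    apply Subtype.ext
    funext z
    change p.eval z = evA z (Polynomial.aeval idA p)
    rw [← Polynomial.aeval_algHom_apply, evA_apply]
    change p.eval z = Polynomial.aeval z p
    rw [Polynomial.coe_aeval_eq_eval]
  rw [h1, ← Polynomial.aeval_algHom_apply, TS_id, aeval_X_coe]

theorem coe_tendsto {𝒰 : Ultrafilter ℕ} {m : ℕ} {A : ℕ → Fin (m + 1) → ℂ} {A' : Fin (m + 1) → ℂ}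
    (h : Tendsto A 𝒰 (𝓝 A')) :
    Tendsto (fun i => ((∑ α : Fin (m + 1), Polynomial.C (A i α) * Polynomial.X ^ (α : ℕ) :
      Polynomial ℂ) : PowerSeries ℂ)) 𝒰 (𝓝 ((∑ α : Fin (m + 1), Polynomial.C (A' α) *
        Polynomial.X ^ (α : ℕ) : Polynomial ℂ) : PowerSeries ℂ)) := by
  refine (PowerSeries.WithPiTopology.tendsto_iff_coeff_tendsto _ _ _ _).2 fun k => ?_
  simp only [Polynomial.coeff_coe, Polynomial.finsetSum_coeff, Polynomial.coeff_C_mul]
  refine tendsto_finsetSum _ fun α _ => ?_
  exact ((continuous_apply α).continuousAt.tendsto.comp h).mul_const _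

/-- compactness -/
theorem ultra_lim {𝒰 : Ultrafilter ℕ} {E : Type} [NormedAddCommGroup E] [ProperSpace E] {C : ℝ}
    {a : ℕ → E} (h : ∀ᶠ i in 𝒰, ‖a i‖ ≤ C) : ∃ x, Tendsto a 𝒰 (𝓝 x) := by
  obtain ⟨x, -, hx⟩ := (isCompact_closedBall (0 : E) C).ultrafilter_le_nhds (𝒰.map a) (by
    rw [Filter.le_principal_iff]
    change ∀ᶠ i in 𝒰, a i ∈ closedBall (0 : E) C
    filter_upwards [h] with i hi
    rwa [mem_closedBall_zero_iff])
  exact ⟨x, hx⟩

/-- **Limits of algebraic functions on growing discs are rational.** -/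
theorem lim_rat {𝒰 : Ultrafilter ℕ} (h𝒰 : (𝒰 : Filter ℕ) ≤ atTop) {R : ℕ → ℝ}
    (hR : ∀ i : ℕ, (i : ℝ) + 2 < R i) {m : ℕ} {a b : ℕ → ℂ → ℂ}
    (ha : ∀ i, DifferentiableOn ℂ (a i) (ball 0 (R i)))
    (hb : ∀ i, DifferentiableOn ℂ (b i) (ball 0 (R i))) (hb0 : ∀ i, b i 0 ≠ 0)
    (halg : ∀ i, AlgP m (ball 0 (R i)) (a i) (b i)) {u : PowerSeries ℂ}
    (hu : Tendsto (fun i => tay 0 fun z => a i z / b i z) 𝒰 (𝓝 u)) :
    ∃ B H : Polynomial ℂ, B ≠ 0 ∧ B.natDegree ≤ m ∧ H.natDegree ≤ m ∧
      (B : PowerSeries ℂ) * u = (H : PowerSeries ℂ) := by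
  classical
  choose c hc hcz using fun i => (halg i).norm
  obtain ⟨cL, hcL⟩ := ultra_lim (𝒰 := 𝒰) (a := c) (C := 1)
    (Filter.Eventually.of_forall fun i => (hc i).le)
  have hcL1 : ‖cL‖ = 1 := by
    refine tendsto_nhds_unique hcL.norm ?_
    simp only [hc]
    exact tendsto_const_nhds
  -- the choice of `τ`
  obtain ⟨τ, α0, hτ⟩ : ∃ (τ : ℂ) (α : Fin (m + 1)),
      ∑ β : Fin (m + 1), cL β α * (-τ) ^ (m - (β : ℕ)) ≠ 0 := by
    have h1 : cL ≠ 0 := by
      intro h0
      rw [h0, norm_zero] at hcL1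
      exact zero_ne_one hcL1
    obtain ⟨β0, hβ0⟩ := Function.ne_iff.1 h1
    obtain ⟨α0, hα0⟩ := Function.ne_iff.1 hβ0
    have hα0' : cL β0 α0 ≠ 0 := hα0
    let q : Polynomial ℂ := ∑ β : Fin (m + 1), Polynomial.C (cL β α0) *
      Polynomial.X ^ (m - (β : ℕ))
    have hq : q ≠ 0 := by
      intro h0
      apply hα0'
      have h2 := congrArg (fun q : Polynomial ℂ => q.coeff (m - (β0 : ℕ))) h0
      simp only [q, Polynomial.finsetSum_coeff, Polynomial.coeff_C_mul, Polynomial.coeff_X_pow,
        Polynomial.coeff_zero] at h2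
      rw [Finset.sum_eq_single β0] at h2
      · simpa using h2
      · intro b _ hb
        rw [if_neg (fun h3 => hb (Fin.ext (by
          have := b.2
          have := β0.2
          omega))), mul_zero]
      · intro h3
        exact absurd (Finset.mem_univ _) h3
    obtain ⟨t, ht⟩ := poly_ne hq
    refine ⟨-t, α0, ?_⟩
    rw [neg_neg]
    simp only [q, Polynomial.eval_finsetSum, Polynomial.eval_mul, Polynomial.eval_C,
      Polynomial.eval_pow, Polynomial.eval_X] at ht
    exact ht
  let AC : (Fin (m + 1) → Fin (m + 1) → ℂ) → Fin (m + 1) → ℂ := fun c α =>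
    ∑ β : Fin (m + 1), c β α * (-τ) ^ (m - (β : ℕ))
  have hACc : Continuous AC := by
    refine continuous_pi fun α => continuous_finsetSum _ fun β _ => ?_
    have h1 : Continuous fun c : Fin (m + 1) → Fin (m + 1) → ℂ => c β α := by fun_prop
    exact h1.mul continuous_const
  let A : ℕ → Polynomial ℂ := fun i =>
    ∑ α : Fin (m + 1), Polynomial.C (AC (c i) α) * Polynomial.X ^ (α : ℕ)
  let AL : Polynomial ℂ := ∑ α : Fin (m + 1), Polynomial.C (AC cL α) * Polynomial.X ^ (α : ℕ)
  have hAt : Tendsto (fun i => (A i : PowerSeries ℂ)) 𝒰 (𝓝 (AL : PowerSeries ℂ)) :=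
    coe_tendsto (hACc.continuousAt.tendsto.comp hcL)
  have hALdeg : AL.natDegree ≤ m := by
    refine Polynomial.natDegree_sum_le_of_forall_le _ _ fun α _ => ?_
    refine (Polynomial.natDegree_C_mul_X_pow_le _ _).trans ?_
    omega
  have hAL0 : AL ≠ 0 := by
    intro h0
    apply hτ
    have h2 := congrArg (fun q : Polynomial ℂ => q.coeff (α0 : ℕ)) h0
    simp only [AL, Polynomial.finsetSum_coeff, Polynomial.coeff_C_mul, Polynomial.coeff_X_pow,
      Polynomial.coeff_zero] at h2
    rw [Finset.sum_eq_single α0] at h2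
    · simpa using h2
    · intro b _ hb
      rw [if_neg (fun h3 => hb (Fin.ext h3.symm)), mul_zero]
    · intro h3
      exact absurd (Finset.mem_univ _) h3
  have hAe : ∀ i z, (A i).eval z = ∑ β : Fin (m + 1),
      (∑ α : Fin (m + 1), c i β α * z ^ (α : ℕ)) * (-τ) ^ (m - (β : ℕ)) := by
    intro i z
    simp only [A, AC, Polynomial.eval_finsetSum, Polynomial.eval_mul, Polynomial.eval_C,
      Polynomial.eval_pow, Polynomial.eval_X, Finset.sum_mul]
    rw [Finset.sum_comm]
    refine Finset.sum_congr rfl fun β _ => Finset.sum_congr rfl fun α _ => ?_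
    ring
  have hRp : ∀ i, 0 < R i := fun i => by
    have h1 : (0 : ℝ) ≤ i := Nat.cast_nonneg _
    linarith [hR i]
  have h0in : ∀ i, (0 : ℂ) ∈ ball (0 : ℂ) (R i) := fun i => mem_ball_self (hRp i)
  have hbne : ∀ i, ∀ᶠ z in 𝓝 (0 : ℂ), z ∈ ball (0 : ℂ) (R i) ∧ b i z ≠ 0 := by
    intro i
    have e1 : ball (0 : ℂ) (R i) ∈ 𝓝 (0 : ℂ) := isOpen_ball.mem_nhds (h0in i)
    have e2 : ∀ᶠ z in 𝓝 (0 : ℂ), b i z ≠ 0 :=
      ((hb i).continuousOn.continuousAt e1).eventually_ne (hb0 i)
    filter_upwards [e1, e2] with z h1 h2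
    exact ⟨h1, h2⟩
  have haan : ∀ i, AnalyticAt ℂ (a i) 0 := fun i =>
    (ha i).analyticAt (isOpen_ball.mem_nhds (h0in i))
  have hban : ∀ i, AnalyticAt ℂ (b i) 0 := fun i =>
    (hb i).analyticAt (isOpen_ball.mem_nhds (h0in i))
  let uA : ℕ → An 0 := fun i => ⟨fun z => a i z / b i z, (haan i).div (hban i) (hb0 i)⟩
  have huA : Tendsto (fun i => TS 0 (uA i)) 𝒰 (𝓝 u) := hu
  by_cases hE : ∀ᶠ i in 𝒰, ∃ z ∈ ball (0 : ℂ) (R i), b i z + τ * a i z ≠ 0
  · -- the extension of the quotient
    let K : ℝ := (m + 1) * (1 + ‖τ‖) ^ m * ((m + 1) * (m + 1))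
    have hK : 0 ≤ K := by positivity
    have hex : ∀ i, ∃ H : ℂ → ℂ, (∃ z ∈ ball (0 : ℂ) (R i), b i z + τ * a i z ≠ 0) →
        DifferentiableOn ℂ H (ball 0 (R i)) ∧
          (∀ z ∈ ball (0 : ℂ) (R i), (A i).eval z * a i z = H z * (b i z + τ * a i z)) ∧
          ∀ z ∈ ball (0 : ℂ) (R i), ‖H z‖ ≤ K * (1 + ‖z‖) ^ m := by
      intro i
      by_cases hi : ∃ z ∈ ball (0 : ℂ) (R i), b i z + τ * a i z ≠ 0
      · obtain ⟨H, h1, h2, h3⟩ := ext_quot (a := fun z => (A i).eval z * a i z)
          (b := fun z => b i z + τ * a i z) (R := R i)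
          ((A i).differentiable.differentiableOn.mul (ha i))
          ((hb i).add ((differentiableOn_const _).mul (ha i))) hi
          (M := fun z => K * (1 + ‖z‖) ^ m) (by fun_prop) (by
            intro z hz hne
            have h4 := root_bd (fun β => ∑ α : Fin (m + 1), c i β α * z ^ (α : ℕ)) τ
              (a i z / (b i z + τ * a i z)) (by
                have h5 : 1 - τ * (a i z / (b i z + τ * a i z)) = b i z / (b i z + τ * a i z) := by
                  field_simp
                  ring
                rw [h5]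
                have h6 : ∀ β : Fin (m + 1), (∑ α : Fin (m + 1), c i β α * z ^ (α : ℕ)) *
                    (a i z / (b i z + τ * a i z)) ^ (β : ℕ) *
                      (b i z / (b i z + τ * a i z)) ^ (m - (β : ℕ)) =
                    ((b i z + τ * a i z) ^ m)⁻¹ * ((∑ α : Fin (m + 1), c i β α * z ^ (α : ℕ)) *
                      a i z ^ (β : ℕ) * b i z ^ (m - (β : ℕ))) := by
                  intro β
                  have h7 : (b i z + τ * a i z) ^ m = (b i z + τ * a i z) ^ (β : ℕ) *
                      (b i z + τ * a i z) ^ (m - (β : ℕ)) := by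
                    rw [← pow_add]
                    congr 1
                    omega
                  rw [h7, div_pow, div_pow]
                  field_simp
                rw [Finset.sum_congr rfl fun β _ => h6 β, ← Finset.mul_sum, hcz i z hz, mul_zero])
            rw [← hAe] at h4
            change ‖(A i).eval z * a i z / (b i z + τ * a i z)‖ ≤ K * (1 + ‖z‖) ^ m
            rw [mul_div_assoc]
            refine h4.trans ?_
            have h8 : ∀ β ∈ (Finset.univ : Finset (Fin (m + 1))),
                ‖∑ α : Fin (m + 1), c i β α * z ^ (α : ℕ)‖ ≤ (m + 1) * (1 + ‖z‖) ^ m := by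
              intro β _
              refine (norm_sum_le _ _).trans ?_
              have h9 : ∀ α ∈ (Finset.univ : Finset (Fin (m + 1))),
                  ‖c i β α * z ^ (α : ℕ)‖ ≤ (1 + ‖z‖) ^ m := by
                intro α _
                rw [norm_mul, norm_pow]
                have e1 : ‖c i β α‖ ≤ 1 := by
                  rw [← hc i]
                  exact (norm_le_pi_norm (c i β) α).trans (norm_le_pi_norm (c i) β)
                have e2 : (1 : ℝ) ≤ 1 + ‖z‖ := by linarith [norm_nonneg z]
                calc ‖c i β α‖ * ‖z‖ ^ (α : ℕ) ≤ 1 * (1 + ‖z‖) ^ (α : ℕ) := by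
                      gcongr
                      linarith
                  _ ≤ (1 + ‖z‖) ^ m := by
                      rw [one_mul]
                      exact pow_le_pow_right₀ e2 (by omega)
              refine (Finset.sum_le_card_nsmul _ _ _ h9).trans ?_
              rw [Finset.card_univ, Fintype.card_fin, nsmul_eq_mul]
              push_cast
              exact le_rfl
            have h10 := Finset.sum_le_card_nsmul _ _ _ h8
            rw [Finset.card_univ, Fintype.card_fin, nsmul_eq_mul] at h10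
            push_cast at h10
            calc ((m : ℝ) + 1) * (1 + ‖τ‖) ^ m *
                ∑ β : Fin (m + 1), ‖∑ α : Fin (m + 1), c i β α * z ^ (α : ℕ)‖ ≤
                (m + 1) * (1 + ‖τ‖) ^ m * ((m + 1) * ((m + 1) * (1 + ‖z‖) ^ m)) := by
                  gcongr
              _ = K * (1 + ‖z‖) ^ m := by
                  simp only [K]
                  ring)
        exact ⟨H, fun _ => ⟨h1, h2, h3⟩⟩
      · exact ⟨0, fun h => absurd h hi⟩
    choose H hH using hex
    -- the bounds for the coefficients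
    have hcoef : ∀ l : ℕ, ∀ i, (∃ z ∈ ball (0 : ℂ) (R i), b i z + τ * a i z ≠ 0) →
        ∀ ρ : ℝ, 0 < ρ → ρ < R i →
          ‖PowerSeries.coeff l (tay 0 (H i))‖ ≤ K * (1 + ρ) ^ m / ρ ^ l := by
      intro l i hi ρ hρ hρR
      obtain ⟨h1, -, h3⟩ := hH i hi
      have h4 := Complex.norm_iteratedDeriv_le_of_forall_mem_sphere_norm_le (c := (0 : ℂ))
        (R := ρ) (C := K * (1 + ρ) ^ m) l hρ
        (h1.diffContOnCl_ball (closedBall_subset_ball hρR)) (by
          intro z hz
          rw [mem_sphere_zero_iff_norm] at hz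
          have h5 := h3 z (by rw [mem_ball_zero_iff, hz]; exact hρR)
          rwa [hz] at h5)
      rw [Pool.Agent.Y564.IL.tay_coeff, norm_div, RCLike.norm_natCast]
      have h6 : (0 : ℝ) < l.factorial := by exact_mod_cast l.factorial_pos
      rw [div_le_iff₀ h6]
      refine h4.trans (le_of_eq ?_)
      ring
    have hlim : ∀ l : ℕ, ∃ x, Tendsto (fun i => PowerSeries.coeff l (tay 0 (H i))) 𝒰 (𝓝 x) := by
      intro l
      refine ultra_lim (C := K * (1 + 1) ^ m / 1 ^ l) ?_
      filter_upwards [hE] with i hi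
      exact hcoef l i hi 1 one_pos (by
        have h1 : (0 : ℝ) ≤ i := Nat.cast_nonneg _
        linarith [hR i])
    choose hL hhL using hlim
    have hL0 : ∀ l, m < l → hL l = 0 := by
      intro l hl
      refine tendsto_nhds_unique (hhL l) ?_
      rw [tendsto_zero_iff_norm_tendsto_zero]
      have h1 : Tendsto (fun i : ℕ => K * 2 ^ m * (1 / ((i : ℝ) + 1))) 𝒰 (𝓝 0) := by
        have h2 := (tendsto_one_div_add_atTop_nhds_zero_nat (𝕜 := ℝ)).mono_left h𝒰
        have h3 := h2.const_mul (K * 2 ^ m)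
        rwa [mul_zero] at h3
      refine squeeze_zero' (Filter.Eventually.of_forall fun i => norm_nonneg _) ?_ h1
      filter_upwards [hE] with i hi
      have h4 : (1 : ℝ) ≤ (i : ℝ) + 1 := by
        have h1 : (0 : ℝ) ≤ i := Nat.cast_nonneg _
        linarith
      refine (hcoef l i hi ((i : ℝ) + 1) (by linarith) (by linarith [hR i])).trans ?_
      obtain ⟨k, rfl⟩ := Nat.exists_eq_add_of_lt hl
      have h5 : (0 : ℝ) < ((i : ℝ) + 1) ^ (m + k + 1) := by positivity
      rw [div_le_iff₀ h5]
      have h6 : (1 + ((i : ℝ) + 1)) ^ m ≤ 2 ^ m * ((i : ℝ) + 1) ^ m := by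
        rw [← mul_pow]
        gcongr
        linarith
      have h7 : ((i : ℝ) + 1) ^ m ≤ 1 / ((i : ℝ) + 1) * ((i : ℝ) + 1) ^ (m + k + 1) := by
        rw [one_div, pow_succ, mul_comm, mul_assoc, mul_inv_cancel₀ (by linarith), mul_one]
        exact pow_le_pow_right₀ h4 (by omega)
      calc K * (1 + ((i : ℝ) + 1)) ^ m ≤ K * (2 ^ m * ((i : ℝ) + 1) ^ m) := by gcongr
        _ ≤ K * (2 ^ m * (1 / ((i : ℝ) + 1) * ((i : ℝ) + 1) ^ (m + k + 1))) := by gcongr
        _ = K * 2 ^ m * (1 / ((i : ℝ) + 1)) * ((i : ℝ) + 1) ^ (m + k + 1) := by ring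
    have hLt : Tendsto (fun i => tay 0 (H i)) 𝒰 (𝓝 (PowerSeries.mk hL)) := by
      refine (PowerSeries.WithPiTopology.tendsto_iff_coeff_tendsto _ _ _ _).2 fun l => ?_
      rw [PowerSeries.coeff_mk]
      exact hhL l
    obtain ⟨Hp, hHpd, hHp⟩ : ∃ Hp : Polynomial ℂ, Hp.natDegree ≤ m ∧
        (Hp : PowerSeries ℂ) = PowerSeries.mk hL := by
      refine ⟨∑ l ∈ Finset.range (m + 1), Polynomial.C (hL l) * Polynomial.X ^ l, ?_, ?_⟩
      · refine Polynomial.natDegree_sum_le_of_forall_le _ _ fun l hl => ?_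
        refine (Polynomial.natDegree_C_mul_X_pow_le _ _).trans ?_
        have := Finset.mem_range.1 hl
        omega
      · ext k
        rw [Polynomial.coeff_coe, PowerSeries.coeff_mk]
        simp only [Polynomial.finsetSum_coeff, Polynomial.coeff_C_mul, Polynomial.coeff_X_pow]
        by_cases hk : k ≤ m
        · rw [Finset.sum_eq_single k]
          · simp
          · intro l _ hl
            rw [if_neg (Ne.symm hl), mul_zero]
          · intro h1
            exact absurd (Finset.mem_range.2 (by omega)) h1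
        · rw [hL0 k (by omega)]
          refine Finset.sum_eq_zero fun l hl => ?_
          have := Finset.mem_range.1 hl
          rw [if_neg (by omega), mul_zero]
    -- the limit equation
    have hrel : ∀ᶠ i in 𝒰, (A i : PowerSeries ℂ) * TS 0 (uA i) =
        tay 0 (H i) * (1 + algebraMap ℂ (PowerSeries ℂ) τ * TS 0 (uA i)) := by
      filter_upwards [hE] with i hi
      obtain ⟨h1, h2, -⟩ := hH i hi
      let hA : An 0 := ⟨H i, h1.analyticAt (isOpen_ball.mem_nhds (h0in i))⟩
      have h3 : TS 0 (polA (A i) * uA i) = TS 0 (hA * (1 + algebraMap ℂ (An 0) τ * uA i)) := by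
        refine TS_congr ?_
        filter_upwards [hbne i] with z hz
        change (A i).eval z * (a i z / b i z) = H i z * (1 + τ * (a i z / b i z))
        have h4 := h2 z hz.1
        have h5 := hz.2
        field_simp
        linear_combination h4
      rw [map_mul, map_mul, map_add, map_one, map_mul, AlgHom.commutes, TS_pol] at h3
      exact h3
    have hlimit : (AL : PowerSeries ℂ) * u =
        (Hp : PowerSeries ℂ) * (1 + algebraMap ℂ (PowerSeries ℂ) τ * u) := by
      have e1 : Tendsto (fun i => (A i : PowerSeries ℂ) * TS 0 (uA i)) 𝒰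
          (𝓝 ((AL : PowerSeries ℂ) * u)) := hAt.mul huA
      have e2 : Tendsto (fun i => tay 0 (H i) * (1 + algebraMap ℂ (PowerSeries ℂ) τ *
          TS 0 (uA i))) 𝒰 (𝓝 ((Hp : PowerSeries ℂ) *
            (1 + algebraMap ℂ (PowerSeries ℂ) τ * u))) := by
        rw [hHp]
        exact hLt.mul (tendsto_const_nhds.add (tendsto_const_nhds.mul huA))
      exact tendsto_nhds_unique (e1.congr' hrel) e2
    have hcoeC : algebraMap ℂ (PowerSeries ℂ) τ = ((Polynomial.C τ : Polynomial ℂ) :
        PowerSeries ℂ) := by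
      rw [Polynomial.coe_C, PowerSeries.algebraMap_apply, Algebra.algebraMap_self,
        RingHom.id_apply]
    refine ⟨AL - Polynomial.C τ * Hp, Hp, ?_, ?_, hHpd, ?_⟩
    · intro h0
      have h1 : AL = Polynomial.C τ * Hp := sub_eq_zero.1 h0
      have h2 : (Hp : PowerSeries ℂ) = 0 := by
        rw [h1, Polynomial.coe_mul, ← hcoeC] at hlimit
        linear_combination -hlimit
      have h3 : Hp = 0 := by
        rw [← Polynomial.coe_zero] at h2
        exact Polynomial.coe_injective _ h2
      exact hAL0 (by rw [h1, h3, mul_zero])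
    · refine (Polynomial.natDegree_sub_le _ _).trans (max_le hALdeg ?_)
      exact (Polynomial.natDegree_C_mul_le _ _).trans hHpd
    · rw [Polynomial.coe_sub, Polynomial.coe_mul, ← hcoeC]
      linear_combination hlimit
  · -- the degenerate case
    have hE' : ∀ᶠ i in 𝒰, ∀ z ∈ ball (0 : ℂ) (R i), b i z + τ * a i z = 0 := by
      have h1 := Ultrafilter.eventually_not.2 hE
      filter_upwards [h1] with i hi
      push Not at hi
      exact hi
    have hrel : ∀ᶠ i in 𝒰, 1 + algebraMap ℂ (PowerSeries ℂ) τ * TS 0 (uA i) = 0 := by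
      filter_upwards [hE'] with i hi
      have h3 : TS 0 (1 + algebraMap ℂ (An 0) τ * uA i) = TS 0 0 := by
        refine TS_congr ?_
        filter_upwards [hbne i] with z hz
        change 1 + τ * (a i z / b i z) = 0
        have h4 := hi z hz.1
        have h5 := hz.2
        field_simp
        linear_combination h4
      rw [map_add, map_one, map_mul, AlgHom.commutes, map_zero] at h3
      exact h3
    have hlimit : 1 + algebraMap ℂ (PowerSeries ℂ) τ * u = 0 := by
      have e1 : Tendsto (fun i => 1 + algebraMap ℂ (PowerSeries ℂ) τ * TS 0 (uA i)) 𝒰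
          (𝓝 (1 + algebraMap ℂ (PowerSeries ℂ) τ * u)) :=
        tendsto_const_nhds.add (tendsto_const_nhds.mul huA)
      exact tendsto_nhds_unique (e1.congr' hrel) tendsto_const_nhds
    have hcoeC : algebraMap ℂ (PowerSeries ℂ) τ = ((Polynomial.C τ : Polynomial ℂ) :
        PowerSeries ℂ) := by
      rw [Polynomial.coe_C, PowerSeries.algebraMap_apply, Algebra.algebraMap_self,
        RingHom.id_apply]
    refine ⟨Polynomial.C τ, -1, ?_, ?_, ?_, ?_⟩
    · intro h0
      rw [hcoeC, h0, Polynomial.coe_zero, zero_mul, add_zero] at hlimit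
      exact one_ne_zero hlimit
    · rw [Polynomial.natDegree_C]
      exact Nat.zero_le _
    · rw [Polynomial.natDegree_neg, Polynomial.natDegree_one]
      exact Nat.zero_le _
    · rw [← hcoeC, Polynomial.coe_neg, Polynomial.coe_one]
      linear_combination hlimit

end Pool.Agent.V1153.KB
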