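import Pool.Agent.V1153.KB.Hof

/-!
A distance on the projective space, and the mean value inequality.
-/

set_option autoImplicit false

namespace Pool.Agent.V1153.KB

open Filter Topology Set Metric ComplexConjugate

variable {n : ℕ}

/-- the square of the Euclidean norm -/
noncomputable def nsq (x : Fin (n + 1) → ℂ) : ℝ := ∑ l, ‖x l‖ ^ 2

/-- the orthogonal projector to the line through `x` -/
noncomputable def pm (x : Fin (n + 1) → ℂ) : Fin (n + 1) × Fin (n + 1) → ℂ := fun p =>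
  x p.1 * conj (x p.2) / ∑ l, x l * conj (x l)

theorem sum_conj (x : Fin (n + 1) → ℂ) : ∑ l, x l * conj (x l) = (nsq x : ℂ) := by
  unfold nsq
  rw [Complex.ofReal_sum]
  refine Finset.sum_congr rfl fun l _ => ?_
  rw [Complex.mul_conj, Complex.normSq_eq_norm_sq]

theorem sq_le_nsq (x : Fin (n + 1) → ℂ) (l : Fin (n + 1)) : ‖x l‖ ^ 2 ≤ nsq x :=
  Finset.single_le_sum (f := fun l => ‖x l‖ ^ 2) (fun _ _ => sq_nonneg _) (Finset.mem_univ l)

theorem exists_max (x : Fin (n + 1) → ℂ) : ∃ l, ‖x l‖ = ‖x‖ := by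
  obtain ⟨l, -, hl⟩ := Finset.exists_max_image Finset.univ (fun l => ‖x l‖) Finset.univ_nonempty
  exact ⟨l, le_antisymm (norm_le_pi_norm x l)
    ((pi_norm_le_iff_of_nonneg (norm_nonneg _)).2 fun j => hl j (Finset.mem_univ j))⟩

theorem norm_sq_le (x : Fin (n + 1) → ℂ) : ‖x‖ ^ 2 ≤ nsq x := by
  obtain ⟨l, hl⟩ := exists_max x
  rw [← hl]
  exact sq_le_nsq x l

theorem nsq_le (x : Fin (n + 1) → ℂ) : nsq x ≤ (n + 1) * ‖x‖ ^ 2 := by
  have h1 : nsq x ≤ ∑ _l : Fin (n + 1), ‖x‖ ^ 2 := Finset.sum_le_sum fun l _ =>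
    pow_le_pow_left₀ (norm_nonneg _) (norm_le_pi_norm x l) 2
  rw [Finset.sum_const, Finset.card_univ, Fintype.card_fin, nsmul_eq_mul] at h1
  push_cast at h1
  exact h1

theorem nsq_pos {x : Fin (n + 1) → ℂ} (h : x ≠ 0) : 0 < nsq x :=
  lt_of_lt_of_le (pow_pos (norm_pos_iff.2 h) 2) (norm_sq_le x)

theorem norm_pm (x : Fin (n + 1) → ℂ) (p : Fin (n + 1) × Fin (n + 1)) :
    ‖pm x p‖ = ‖x p.1‖ * ‖x p.2‖ / nsq x := by
  have h0 : 0 ≤ nsq x := Finset.sum_nonneg fun _ _ => sq_nonneg _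
  unfold pm
  rw [sum_conj, norm_div, norm_mul, RCLike.norm_conj, Complex.norm_real, Real.norm_of_nonneg h0]

theorem norm_pm_le {x : Fin (n + 1) → ℂ} (h : x ≠ 0) : ‖pm x‖ ≤ 1 := by
  refine (pi_norm_le_iff_of_nonneg zero_le_one).2 fun p => ?_
  rw [norm_pm, div_le_one (nsq_pos h)]
  refine le_trans ?_ (norm_sq_le x)
  rw [sq]
  exact mul_le_mul (norm_le_pi_norm x _) (norm_le_pi_norm x _) (norm_nonneg _) (norm_nonneg _)

/-- points with the same projector -/
theorem pm_inj {x y : Fin (n + 1) → ℂ} (hx : x ≠ 0) (hy : y ≠ 0) (h : pm x = pm y)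
    (j k : Fin (n + 1)) : x j * y k = x k * y j := by
  have hSx : (nsq x : ℂ) ≠ 0 := Complex.ofReal_ne_zero.2 (nsq_pos hx).ne'
  have hSy : (nsq y : ℂ) ≠ 0 := Complex.ofReal_ne_zero.2 (nsq_pos hy).ne'
  have h1 : ∀ a b, x a * conj (x b) * (nsq y : ℂ) = y a * conj (y b) * (nsq x : ℂ) := by
    intro a b
    have h2 := congrFun h (a, b)
    unfold pm at h2
    rw [sum_conj, sum_conj, div_eq_div_iff hSx hSy] at h2
    exact h2
  obtain ⟨l, hl⟩ := Function.ne_iff.1 hx
  have hl' : conj (x l) ≠ 0 := (map_ne_zero _).2 hl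
  have h3 : conj (x l) * (nsq y : ℂ) * (x j * y k - x k * y j) = 0 := by
    have h4 := h1 j l
    have h5 := h1 k l
    linear_combination y k * h4 - y j * h5
  have h6 := (mul_eq_zero.1 h3).resolve_left (mul_ne_zero hl' hSy)
  exact sub_eq_zero.1 h6

/-- the projector depends only on the line -/
theorem pm_congr {x y : Fin (n + 1) → ℂ} (hx : x ≠ 0) (hy : y ≠ 0)
    (h : ∀ j k, x j * y k = x k * y j) : pm x = pm y := by
  obtain ⟨l, hl⟩ := Function.ne_iff.1 hy
  have hl' : y l ≠ 0 := hl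
  set c : ℂ := x l / y l with hc
  have hxc : ∀ j, x j = c * y j := by
    intro j
    rw [hc, div_mul_eq_mul_div, eq_div_iff hl']
    exact h j l
  have hc0 : c ≠ 0 := by
    intro h0
    apply hx
    funext j
    rw [hxc, h0, zero_mul, Pi.zero_apply]
  funext p
  unfold pm
  have h1 : ∑ l, x l * conj (x l) = c * conj c * ∑ l, y l * conj (y l) := by
    rw [Finset.mul_sum]
    refine Finset.sum_congr rfl fun l _ => ?_
    rw [hxc l, map_mul]
    ring
  have h2 : c * conj c ≠ 0 := mul_ne_zero hc0 ((map_ne_zero _).2 hc0)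
  rw [h1, hxc p.1, hxc p.2, map_mul, ← mul_div_mul_left (y p.1 * conj (y p.2)) _ h2]
  congr 1
  ring

/-- the derivative of the projector -/
theorem pm_deriv {F : ℝ → Fin (n + 1) → ℂ} {V : Fin (n + 1) → ℂ} {t : ℝ}
    (hF : ∀ j, HasDerivAt (fun t => F t j) (V j) t) (hne : F t ≠ 0)
    (p : Fin (n + 1) × Fin (n + 1)) : ∃ D : ℂ, HasDerivAt (fun t => pm (F t) p) D t ∧
      ‖D‖ ≤ 2 * (n + 1) * (‖fun p : Fin (n + 1) × Fin (n + 1) =>
        F t p.1 * V p.2 - F t p.2 * V p.1‖ / ‖F t‖ ^ 2) := by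
  set ω : Fin (n + 1) × Fin (n + 1) → ℂ := fun p => F t p.1 * V p.2 - F t p.2 * V p.1 with hω
  have hS0 : (nsq (F t) : ℂ) ≠ 0 := Complex.ofReal_ne_zero.2 (nsq_pos hne).ne'
  have hS : ∑ l, F t l * conj (F t l) ≠ 0 := by
    rw [sum_conj]
    exact hS0
  have hc : ∀ j, HasDerivAt (fun t => conj (F t j)) (conj (V j)) t := fun j => (hF j).star
  have h1 : HasDerivAt (fun t => F t p.1 * conj (F t p.2))
      (V p.1 * conj (F t p.2) + F t p.1 * conj (V p.2)) t := (hF p.1).mul (hc p.2)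
  have h2 : HasDerivAt (fun t => ∑ l, F t l * conj (F t l))
      (∑ l, (V l * conj (F t l) + F t l * conj (V l))) t :=
    HasDerivAt.fun_sum fun l _ => (hF l).mul (hc l)
  have h3 := h1.div h2 hS
  refine ⟨_, h3, ?_⟩
  have h4 : (V p.1 * conj (F t p.2) + F t p.1 * conj (V p.2)) * ∑ l, F t l * conj (F t l) -
      F t p.1 * conj (F t p.2) * ∑ l, (V l * conj (F t l) + F t l * conj (V l)) =
      ∑ l, (conj (F t p.2) * conj (F t l) * ω (l, p.1) +
        F t p.1 * F t l * conj (ω (l, p.2))) := by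
    rw [Finset.mul_sum, Finset.mul_sum, ← Finset.sum_sub_distrib]
    refine Finset.sum_congr rfl fun l _ => ?_
    simp only [hω, map_sub, map_mul]
    ring
  rw [h4, sum_conj, norm_div, norm_pow, Complex.norm_real, Real.norm_of_nonneg
    (nsq_pos hne).le]
  have hN : 0 < ‖F t‖ := norm_pos_iff.2 hne
  have h5 : ‖∑ l, (conj (F t p.2) * conj (F t l) * ω (l, p.1) +
      F t p.1 * F t l * conj (ω (l, p.2)))‖ ≤ (n + 1) * (2 * (‖F t‖ ^ 2 * ‖ω‖)) := by
    refine (norm_sum_le _ _).trans ?_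
    have h6 : ∀ l ∈ (Finset.univ : Finset (Fin (n + 1))),
        ‖conj (F t p.2) * conj (F t l) * ω (l, p.1) + F t p.1 * F t l * conj (ω (l, p.2))‖ ≤
          2 * (‖F t‖ ^ 2 * ‖ω‖) := by
      intro l _
      refine (norm_add_le _ _).trans ?_
      have a1 : ‖conj (F t p.2) * conj (F t l) * ω (l, p.1)‖ ≤ ‖F t‖ ^ 2 * ‖ω‖ := by
        rw [norm_mul, norm_mul, RCLike.norm_conj, RCLike.norm_conj, sq]
        gcongr
        · exact norm_le_pi_norm (F t) _
        · exact norm_le_pi_norm (F t) _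
        · exact norm_le_pi_norm ω _
      have a2 : ‖F t p.1 * F t l * conj (ω (l, p.2))‖ ≤ ‖F t‖ ^ 2 * ‖ω‖ := by
        rw [norm_mul, norm_mul, RCLike.norm_conj, sq]
        gcongr
        · exact norm_le_pi_norm (F t) _
        · exact norm_le_pi_norm (F t) _
        · exact norm_le_pi_norm ω _
      linarith
    refine (Finset.sum_le_card_nsmul _ _ _ h6).trans ?_
    rw [Finset.card_univ, Fintype.card_fin, nsmul_eq_mul]
    push_cast
    exact le_rfl
  have hs := norm_sq_le (F t)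
  have hsp := nsq_pos hne
  calc _ ≤ (n + 1) * (2 * (‖F t‖ ^ 2 * ‖ω‖)) / nsq (F t) ^ 2 := by gcongr
    _ ≤ (n + 1) * (2 * (nsq (F t) * ‖ω‖)) / nsq (F t) ^ 2 := by gcongr
    _ = 2 * (n + 1) * (‖ω‖ / nsq (F t)) := by
        field_simp
    _ ≤ 2 * (n + 1) * (‖ω‖ / ‖F t‖ ^ 2) := by gcongr

/-- **The mean value inequality.** -/
theorem pm_lip {f : ℂ → Fin (n + 1) → ℂ} {U : Set ℂ} (hU : IsOpen U) (hc : Convex ℝ U)
    (hf : ∀ j, DifferentiableOn ℂ (fun z => f z j) U) (hne : ∀ z ∈ U, f z ≠ 0) {C : ℝ}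
    (hW : ∀ z ∈ U, W f z ≤ C) {z w : ℂ} (hz : z ∈ U) (hw : w ∈ U) :
    ‖pm (f w) - pm (f z)‖ ≤ 2 * (n + 1) * C * ‖w - z‖ := by
  have hC : 0 ≤ C := (W_nonneg f z).trans (hW z hz)
  refine (pi_norm_le_iff_of_nonneg (by positivity)).2 fun p => ?_
  have hseg : ∀ t ∈ Icc (0 : ℝ) 1, z + t * (w - z) ∈ U := by
    intro t ht
    have h1 := hc hz hw (sub_nonneg.2 ht.2) ht.1 (by ring)
    have h2 : (1 - t) • z + t • w = z + t * (w - z) := by
      simp only [Complex.real_smul]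
      push_cast
      ring
    rwa [h2] at h1
  have hd : ∀ t ∈ Icc (0 : ℝ) 1, ∃ D : ℂ,
      HasDerivAt (fun t : ℝ => pm (f (z + t * (w - z))) p) D t ∧
        ‖D‖ ≤ 2 * (n + 1) * C * ‖w - z‖ := by
    intro t ht
    have hin := hseg t ht
    obtain ⟨D, h1, h2⟩ := pm_deriv (F := fun t : ℝ => f (z + t * (w - z)))
      (V := fun j => deriv (fun z => f z j) (z + t * (w - z)) * (w - z)) (t := t) (fun j => by
        have h3 : HasDerivAt (fun t : ℝ => z + (t : ℂ) * (w - z)) (w - z) t := by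
          have h4 := (((hasDerivAt_id (t : ℝ)).ofReal_comp).mul_const (w - z)).const_add z
          simpa using h4
        exact (((hf j).differentiableAt (hU.mem_nhds hin)).hasDerivAt).comp t h3)
      (hne _ hin) p
    refine ⟨D, h1, h2.trans ?_⟩
    have h5 : (fun p : Fin (n + 1) × Fin (n + 1) => f (z + t * (w - z)) p.1 *
        (deriv (fun z => f z p.2) (z + t * (w - z)) * (w - z)) - f (z + t * (w - z)) p.2 *
          (deriv (fun z => f z p.1) (z + t * (w - z)) * (w - z))) =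
        (w - z) • wr f (z + t * (w - z)) := by
      funext p
      change _ = (w - z) * (f (z + t * (w - z)) p.1 * deriv (fun w => f w p.2) (z + t * (w - z)) -
        f (z + t * (w - z)) p.2 * deriv (fun w => f w p.1) (z + t * (w - z)))
      ring
    change 2 * ((n : ℝ) + 1) * (‖fun p : Fin (n + 1) × Fin (n + 1) => f (z + t * (w - z)) p.1 *
        (deriv (fun z => f z p.2) (z + t * (w - z)) * (w - z)) - f (z + t * (w - z)) p.2 *
          (deriv (fun z => f z p.1) (z + t * (w - z)) * (w - z))‖ /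
            ‖f (z + t * (w - z))‖ ^ 2) ≤ _
    rw [h5, norm_smul, mul_div_assoc]
    have h6 := hW _ hin
    unfold W at h6
    calc 2 * ((n : ℝ) + 1) * (‖w - z‖ * (‖wr f (z + t * (w - z))‖ / ‖f (z + t * (w - z))‖ ^ 2)) ≤
        2 * (n + 1) * (‖w - z‖ * C) := by gcongr
      _ = _ := by ring
  choose! D hD1 hD2 using hd
  have h7 := norm_image_sub_le_of_norm_deriv_le_segment_01' (f := fun t : ℝ =>
    pm (f (z + t * (w - z))) p) (f' := D) (C := 2 * (n + 1) * C * ‖w - z‖)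
    (fun t ht => (hD1 t ht).hasDerivWithinAt) (fun t ht => hD2 t (Ico_subset_Icc_self ht))
  have h8 : z + ((1 : ℝ) : ℂ) * (w - z) = w := by
    push_cast
    ring
  have h9 : z + ((0 : ℝ) : ℂ) * (w - z) = z := by
    push_cast
    ring
  simp only [h8, h9] at h7
  exact h7

end Pool.Agent.V1153.KB
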