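import Pool.Agent.V1153.KB.Lim
import Pool.Agent.V1153.KB.Pm
import Pool.Agent.V1153.UG.UnfC

/-!
Algebraic discs in varieties without rational curves of bounded degree.
-/

set_option autoImplicit false

namespace Pool.Agent.V1153.KB

open Filter Topology Set Metric MvPolynomial
open Pool.Agent.V1153.UG Pool.Agent.Y377.IL
open scoped PowerSeries.WithPiTopology

variable {n : ℕ}

/-- `f` is the vector of homogeneous coordinates of a holomorphic map from the disc of radius `R` to
the projective variety with the equations `E`. -/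
structure RDisc (E : Set (MvPolynomial (Fin (n + 1)) ℂ)) (R : ℝ) (f : ℂ → Fin (n + 1) → ℂ) :
    Prop where
  diff : ∀ j, DifferentiableOn ℂ (fun z => f z j) (ball 0 R)
  ne : ∀ z ∈ ball (0 : ℂ) R, f z ≠ 0
  mem : ∀ z ∈ ball (0 : ℂ) R, ∀ F ∈ E, eval (f z) F = 0

/-- All quotients of homogeneous coordinates satisfy algebraic equations of bidegree at most
`(m, m)`. -/
def AlgM (m : ℕ) (R : ℝ) (f : ℂ → Fin (n + 1) → ℂ) : Prop :=
  ∀ j k, AlgP m (ball 0 R) (fun z => f z j) fun z => f z k

theorem aeval_scale {A : Type} [CommRing A] [Algebra ℂ A] {F : MvPolynomial (Fin (n + 1)) ℂ}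
    {d : ℕ} (hF : F.IsHomogeneous d) (c : A) (x : Fin (n + 1) → A) :
    aeval (fun j => c * x j) F = c ^ d * aeval x F := by
  rw [aeval_def, aeval_def, eval₂_eq', eval₂_eq', Finset.mul_sum]
  refine Finset.sum_congr rfl fun s hs' => ?_
  have h1 := hF (mem_support_iff.1 hs')
  rw [Finsupp.weight_apply, Finsupp.sum_fintype _ _ (by simp)] at h1
  have h2 : ∑ i, s i = d := by simpa using h1
  simp_rw [mul_pow]
  rw [Finset.prod_mul_distrib, Finset.prod_pow_eq_pow_sum, h2]
  ring

theorem infinite_ball {R : ℝ} (hR : 0 < R) : (ball (0 : ℂ) R).Infinite :=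
  infinite_of_mem_nhds 0 (ball_mem_nhds 0 hR)

/-- rescaled discs -/
theorem rescaled {E : Set (MvPolynomial (Fin (n + 1)) ℂ)} {m : ℕ}
    (h : ∀ C : ℝ, ∃ f, RDisc E 1 f ∧ AlgM m 1 f ∧ C < W f 0) (r : ℝ) (hr : 0 < r) :
    ∃ (g : ℂ → Fin (n + 1) → ℂ) (R : ℝ), r < R ∧ RDisc E R g ∧ AlgM m R g ∧ W g 0 = 1 ∧
      ∀ w ∈ ball (0 : ℂ) R, W g w ≤ 2 := by
  obtain ⟨f, hf, ha, hW⟩ := h (4 * r)
  have h0 : 0 < W f 0 := by linarith
  obtain ⟨a, s, hs, h1, h2, h3⟩ := hofer hf.diff hf.ne h0
  refine ⟨_, W f 0 / 4, by linarith, ⟨fun j => ?_, fun z hz => hf.ne _ (h1 z hz),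
    fun z hz => hf.mem _ (h1 z hz)⟩, fun j k => ?_, h2, h3⟩
  · refine (hf.diff j).comp ?_ fun z hz => h1 z hz
    exact (differentiableOn_const _).add (differentiableOn_id.mul (differentiableOn_const _))
  · have hs' : ((s⁻¹ : ℝ) : ℂ) ≠ 0 := by
      rw [Ne, Complex.ofReal_eq_zero]
      exact inv_ne_zero hs.ne'
    refine (ha j k).comp (s := ((s⁻¹ : ℝ) : ℂ)) (t := a) (u := 0) (v := 1)
      (φ := fun w => a + w * (s⁻¹ : ℝ)) (infinite_ball (by linarith)) h1 (fun x _ y _ hxy => ?_)
      (fun w _ => by rw [zero_mul, zero_add]; exact one_ne_zero) fun w _ => by ring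
    exact mul_right_cancel₀ hs' (add_left_cancel hxy)

/-- **Algebraic discs of bounded degree.** -/
theorem disc_bound (n m : ℕ) : ∀ E : Set (MvPolynomial (Fin (n + 1)) ℂ),
    (∀ F ∈ E, ∃ a, F.IsHomogeneous a) →
    (∀ P, ¬ GmBdd (Ideal.span E) 1 ((n + 1) * m) P) →
      ∃ C : ℝ, ∀ f, RDisc E 1 f → AlgM m 1 f → W f 0 ≤ C := by
  classical
  intro E hE hno
  by_contra hcon
  push Not at hcon
  have hres := rescaled (E := E) (m := m) hcon
  -- the chart
  obtain ⟨k, hk⟩ : ∃ k : Fin (n + 1), ∀ i : ℕ, ∃ (g : ℂ → Fin (n + 1) → ℂ) (R : ℝ),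
      (i : ℝ) + 2 < R ∧ RDisc E R g ∧ AlgM m R g ∧ W g 0 = 1 ∧
        (∀ w ∈ ball (0 : ℂ) R, W g w ≤ 2) ∧ ‖g 0 k‖ = ‖g 0‖ := by
    by_contra hc
    push Not at hc
    choose I hI using hc
    obtain ⟨g, R, h1, h2, h3, h4, h5⟩ := hres (((Finset.univ.sup I : ℕ) : ℝ) + 2) (by positivity)
    obtain ⟨k, hk⟩ := exists_max (g 0)
    refine hI k g R ?_ h2 h3 h4 h5 hk
    have h6 : ((I k : ℕ) : ℝ) ≤ ((Finset.univ.sup I : ℕ) : ℝ) := by
      exact_mod_cast Finset.le_sup (Finset.mem_univ k)
    linarith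
  choose g R hR hg halg hW0 hW2 hgk using hk
  set 𝒰 : Ultrafilter ℕ := Filter.hyperfilter ℕ with h𝒰
  have h𝒰le : (𝒰 : Filter ℕ) ≤ atTop := Nat.hyperfilter_le_atTop
  have hRp : ∀ i, 0 < R i := fun i => by
    have h1 : (0 : ℝ) ≤ (i : ℕ) := Nat.cast_nonneg _
    linarith [hR i]
  have h0in : ∀ i, (0 : ℂ) ∈ ball (0 : ℂ) (R i) := fun i => mem_ball_self (hRp i)
  -- the bounded chart
  set ε : ℝ := 1 / (8 * ((n : ℝ) + 1) ^ 2) with hε
  have hn1 : (1 : ℝ) ≤ (n : ℝ) + 1 := by
    have : (0 : ℝ) ≤ n := Nat.cast_nonneg _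
    linarith
  have hε0 : 0 < ε := by positivity
  have hε1 : ε < 1 := by
    rw [hε, div_lt_one (by positivity)]
    nlinarith
  have hsub : ∀ i, ball (0 : ℂ) ε ⊆ ball (0 : ℂ) (R i) := fun i => ball_subset_ball (by
    have h1 : (0 : ℝ) ≤ (i : ℕ) := Nat.cast_nonneg _
    linarith [hR i])
  have hchart : ∀ i, ∀ z ∈ ball (0 : ℂ) ε, g i z k ≠ 0 ∧
      ∀ j, ‖g i z j / g i z k‖ ≤ 2 * ((n : ℝ) + 1) := by
    intro i z hz
    have hz' := hsub i hz
    have h1 := pm_lip isOpen_ball (convex_ball 0 (R i)) (hg i).diff (hg i).ne (hW2 i) (h0in i) hz'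
    rw [sub_zero] at h1
    rw [mem_ball_zero_iff] at hz
    have h2 : ‖pm (g i z) - pm (g i 0)‖ ≤ 1 / (2 * ((n : ℝ) + 1)) := by
      refine h1.trans ?_
      calc 2 * ((n : ℝ) + 1) * 2 * ‖z‖ ≤ 2 * ((n : ℝ) + 1) * 2 * ε := by gcongr
        _ = 1 / (2 * ((n : ℝ) + 1)) := by
            rw [hε]
            field_simp
            ring
    have h3 := (norm_le_pi_norm (pm (g i z) - pm (g i 0)) (k, k)).trans h2
    have h4 : 1 / ((n : ℝ) + 1) ≤ ‖pm (g i 0) (k, k)‖ := by
      rw [norm_pm, div_le_div_iff₀ (by positivity) (nsq_pos ((hg i).ne 0 (h0in i))), one_mul]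
      simp only
      rw [hgk i]
      have := nsq_le (g i 0)
      nlinarith
    have h5 : 1 / (2 * ((n : ℝ) + 1)) ≤ ‖pm (g i z) (k, k)‖ := by
      have h6 := norm_sub_norm_le (pm (g i 0) (k, k)) (pm (g i z) (k, k))
      rw [norm_sub_rev] at h6
      have h7 : ‖pm (g i z) (k, k) - pm (g i 0) (k, k)‖ ≤ 1 / (2 * ((n : ℝ) + 1)) := h3
      have h8 : 1 / ((n : ℝ) + 1) = 1 / (2 * ((n : ℝ) + 1)) + 1 / (2 * ((n : ℝ) + 1)) := by
        field_simp
        ring
      linarith
    have hnz := nsq_pos ((hg i).ne z hz')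
    rw [norm_pm, div_le_div_iff₀ (by positivity) hnz, one_mul] at h5
    simp only at h5
    have hkz : g i z k ≠ 0 := by
      intro h0
      rw [h0, norm_zero, zero_mul, zero_mul] at h5
      linarith
    refine ⟨hkz, fun j => ?_⟩
    have hkp : 0 < ‖g i z k‖ := norm_pos_iff.2 hkz
    rw [norm_div, div_le_iff₀ hkp]
    have h6 := sq_le_nsq (g i z) j
    have h7 : ‖g i z j‖ ^ 2 ≤ (2 * ((n : ℝ) + 1) * ‖g i z k‖) ^ 2 := by
      calc ‖g i z j‖ ^ 2 ≤ nsq (g i z) := h6
        _ ≤ ‖g i z k‖ * ‖g i z k‖ * (2 * ((n : ℝ) + 1)) := h5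
        _ ≤ ‖g i z k‖ * ‖g i z k‖ * (2 * ((n : ℝ) + 1)) ^ 2 := by
            gcongr
            nlinarith
        _ = _ := by ring
    exact (pow_le_pow_iff_left₀ (norm_nonneg _) (by positivity) two_ne_zero).1 h7
  have hud : ∀ i j, DifferentiableOn ℂ (fun z => g i z j / g i z k) (ball 0 ε) := fun i j =>
    (((hg i).diff j).mono (hsub i)).div (((hg i).diff k).mono (hsub i)) fun z hz =>
      (hchart i z hz).1
  have h0ε : (0 : ℂ) ∈ ball (0 : ℂ) ε := mem_ball_self hε0
  have huan : ∀ i j, AnalyticAt ℂ (fun z => g i z j / g i z k) 0 := fun i j =>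
    (hud i j).analyticAt (isOpen_ball.mem_nhds h0ε)
  let uA : ℕ → Fin (n + 1) → An 0 := fun i j => ⟨_, huan i j⟩
  -- the limit
  have hlim : ∀ (j : Fin (n + 1)) (l : ℕ), ∃ x,
      Tendsto (fun i => PowerSeries.coeff l (TS 0 (uA i j))) 𝒰 (𝓝 x) := by
    intro j l
    refine ultra_lim (C := 2 * ((n : ℝ) + 1) / (ε / 2) ^ l) (Filter.Eventually.of_forall fun i => ?_)
    have h4 := Complex.norm_iteratedDeriv_le_of_forall_mem_sphere_norm_le (c := (0 : ℂ))
      (R := ε / 2) (C := 2 * ((n : ℝ) + 1)) l (by positivity)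
      ((hud i j).diffContOnCl_ball (closedBall_subset_ball (by linarith))) (by
        intro z hz
        rw [mem_sphere_zero_iff_norm] at hz
        exact (hchart i z (by rw [mem_ball_zero_iff, hz]; linarith)).2 j)
    change ‖PowerSeries.coeff l (tay 0 fun z => g i z j / g i z k)‖ ≤ _
    rw [Pool.Agent.Y564.IL.tay_coeff, norm_div, RCLike.norm_natCast]
    have h6 : (0 : ℝ) < l.factorial := by exact_mod_cast l.factorial_pos
    rw [div_le_iff₀ h6]
    refine h4.trans (le_of_eq ?_)
    ring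
  choose uc huc using hlim
  let u : Fin (n + 1) → PowerSeries ℂ := fun j => PowerSeries.mk (uc j)
  have hu : ∀ j, Tendsto (fun i => TS 0 (uA i j)) 𝒰 (𝓝 (u j)) := by
    intro j
    refine (PowerSeries.WithPiTopology.tendsto_iff_coeff_tendsto _ _ _ _).2 fun l => ?_
    rw [PowerSeries.coeff_mk]
    exact huc j l
  have hupi : Tendsto (fun i j => TS 0 (uA i j)) 𝒰 (𝓝 u) := tendsto_pi_nhds.2 hu
  -- rationality
  have hrat : ∀ j, ∃ B H : Polynomial ℂ, B ≠ 0 ∧ B.natDegree ≤ m ∧ H.natDegree ≤ m ∧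
      (B : PowerSeries ℂ) * u j = (H : PowerSeries ℂ) := fun j =>
    lim_rat h𝒰le hR (fun i => (hg i).diff j) (fun i => (hg i).diff k)
      (fun i => (hchart i 0 h0ε).1) (fun i => halg i j k) (hu j)
  choose B H hB hBd hHd hBH using hrat
  let P : Fin (n + 1) → Polynomial ℂ := fun j => H j * ∏ l ∈ Finset.univ.erase j, B l
  let Bt : Polynomial ℂ := ∏ l, B l
  have hBt : Bt ≠ 0 := Finset.prod_ne_zero_iff.2 fun l _ => hB l
  have hBt' : (Bt : PowerSeries ℂ) ≠ 0 := by
    rw [← Polynomial.coe_zero]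
    exact fun h => hBt (Polynomial.coe_injective _ h)
  have hPu : ∀ j, (P j : PowerSeries ℂ) = (Bt : PowerSeries ℂ) * u j := by
    intro j
    have h1 : Bt = B j * ∏ l ∈ Finset.univ.erase j, B l :=
      (Finset.mul_prod_erase Finset.univ B (Finset.mem_univ j)).symm
    rw [h1]
    simp only [P]
    rw [Polynomial.coe_mul, Polynomial.coe_mul, ← hBH j]
    ring
  apply hno P
  refine ⟨fun j => ?_, ?_, ⟨1, 0, one_ne_zero, ?_⟩, nc_of_wr ?_⟩
  · refine Polynomial.natDegree_mul_le.trans ?_
    have h1 : (∏ l ∈ Finset.univ.erase j, B l).natDegree ≤ n * m := by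
      refine (Polynomial.natDegree_prod_le _ _).trans ?_
      refine (Finset.sum_le_card_nsmul _ _ m fun l _ => hBd l).trans ?_
      rw [Finset.card_erase_of_mem (Finset.mem_univ j), Finset.card_univ, Fintype.card_fin,
        smul_eq_mul, Nat.add_sub_cancel]
    have h2 := hHd j
    have h3 : (n + 1) * m = m + n * m := by ring
    omega
  · intro F hF _
    have hker : Ideal.span E ≤ RingHom.ker (aeval P : MvPolynomial (Fin (n + 1)) ℂ →ₐ[ℂ] _) := by
      refine Ideal.span_le.2 fun F hF => ?_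
      obtain ⟨d, hd⟩ := hE F hF
      change aeval P F = 0
      -- the power series
      have h1 : aeval u F = (0 : PowerSeries ℂ) := by
        have e1 : ∀ x : Fin (n + 1) → PowerSeries ℂ, aeval x F =
            eval x (map (algebraMap ℂ (PowerSeries ℂ)) F) := fun x => by
          rw [eval_map]
          rfl
        have e2 : Tendsto (fun i => aeval (fun j => TS 0 (uA i j)) F) 𝒰
            (𝓝 (aeval u F : PowerSeries ℂ)) := by
          simp only [e1]
          exact (MvPolynomial.continuous_eval _).continuousAt.tendsto.comp hupi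
        refine tendsto_nhds_unique e2 ?_
        refine tendsto_const_nhds.congr fun i => ?_
        have e3 : aeval (fun j => TS 0 (uA i j)) F = TS 0 (aeval (uA i) F) := by
          have e4 := comp_aeval_apply (uA i) (TS 0) F
          exact e4.symm
        rw [e3]
        symm
        rw [← map_zero (TS 0)]
        refine TS_congr ?_
        filter_upwards [isOpen_ball.mem_nhds h0ε] with z hz
        have e5 : (aeval (uA i) F : An 0).1 z = eval (fun j => g i z j / g i z k) F := by
          have e6 := comp_aeval_apply (uA i) (evA z) F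
          change evA z (aeval (uA i) F) = _
          rw [e6, ← MvPolynomial.coe_aeval_eq_eval]
          rfl
        rw [e5]
        have e7 : (fun j => g i z j / g i z k) = fun j => (g i z k)⁻¹ * g i z j := by
          funext j
          rw [div_eq_mul_inv, mul_comm]
        rw [e7, eval_homog hd, (hg i).mem z (hsub i hz) F hF, mul_zero]
        rfl
      have h2 : ((aeval P F : Polynomial ℂ) : PowerSeries ℂ) =
          aeval (fun j => (P j : PowerSeries ℂ)) F := by
        have e4 := comp_aeval_apply P (Polynomial.coeToPowerSeries.algHom ℂ) F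
        have e5 : ∀ q : Polynomial ℂ, (Polynomial.coeToPowerSeries.algHom ℂ q : PowerSeries ℂ) =
            (q : PowerSeries ℂ) := fun q => by
          rw [Polynomial.coeToPowerSeries.algHom_apply, Algebra.algebraMap_self]
          simp
        rw [e5] at e4
        rw [e4]
        congr 1
      have h3 : (fun j => (P j : PowerSeries ℂ)) = fun j => (Bt : PowerSeries ℂ) * u j :=
        funext hPu
      rw [h3, aeval_scale hd, h1, mul_zero, ← Polynomial.coe_zero] at h2
      exact Polynomial.coe_injective _ h2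
    exact hker hF
  · rw [map_one, pow_zero, mul_one, map_one]
  · -- the limit is not constant
    by_contra hcw
    push Not at hcw
    have hc0 : ∀ j, Tendsto (fun i => g i 0 j / g i 0 k) 𝒰
        (𝓝 (PowerSeries.constantCoeff (u j))) := by
      intro j
      have h1 := (PowerSeries.WithPiTopology.continuous_constantCoeff ℂ).continuousAt.tendsto.comp
        (hu j)
      refine h1.congr fun i => ?_
      change PowerSeries.constantCoeff (TS 0 (uA i j)) = _
      rw [TS_cc]
    have hc1 : ∀ j, Tendsto (fun i => deriv (fun z => g i z j / g i z k) 0) 𝒰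
        (𝓝 (PowerSeries.constantCoeff (PowerSeries.derivative ℂ (u j)))) := by
      intro j
      have h1 := (PowerSeries.WithPiTopology.continuous_coeff ℂ 1).continuousAt.tendsto.comp
        (hu j)
      have h2 : PowerSeries.coeff 1 (u j) =
          PowerSeries.constantCoeff (PowerSeries.derivative ℂ (u j)) := by
        rw [← PowerSeries.coeff_zero_eq_constantCoeff_apply]
        change _ = PowerSeries.coeff 0 (PowerSeries.derivative ℂ (u j))
        rw [PowerSeries.coeff_derivative]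
        simp
      rw [h2] at h1
      refine h1.congr fun i => ?_
      change PowerSeries.coeff 1 (tay 0 fun z => g i z j / g i z k) = _
      rw [Pool.Agent.Y564.IL.tay_coeff, iteratedDeriv_one]
      simp
    have hwz : ∀ p q, PowerSeries.constantCoeff (u p) *
        PowerSeries.constantCoeff (PowerSeries.derivative ℂ (u q)) -
          PowerSeries.constantCoeff (u q) *
            PowerSeries.constantCoeff (PowerSeries.derivative ℂ (u p)) = 0 := by
      intro p q
      have h1 := congrArg (fun x : Polynomial ℂ => (x : PowerSeries ℂ)) (hcw p q)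
      simp only [Polynomial.coe_mul] at h1
      have h2 : ∀ x : Polynomial ℂ, ((Polynomial.derivative x : Polynomial ℂ) : PowerSeries ℂ) =
          PowerSeries.derivative ℂ (x : PowerSeries ℂ) := fun x =>
        (PowerSeries.derivative_coe x).symm
      rw [h2, h2, hPu, hPu, Derivation.leibniz, Derivation.leibniz] at h1
      simp only [smul_eq_mul] at h1
      have h3 : (Bt : PowerSeries ℂ) ^ 2 * (u p * PowerSeries.derivative ℂ (u q) -
          u q * PowerSeries.derivative ℂ (u p)) = 0 := by linear_combination -h1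
      have h4 := (mul_eq_zero.1 h3).resolve_left (pow_ne_zero _ hBt')
      have h5 := congrArg PowerSeries.constantCoeff h4
      rw [map_sub, map_mul, map_mul, map_zero] at h5
      exact h5
    -- the size of the Wronskians
    have hw1 : ∀ i, ∃ p : Fin (n + 1) × Fin (n + 1),
        ‖g i 0 p.1 / g i 0 k * deriv (fun z => g i z p.2 / g i z k) 0 -
          g i 0 p.2 / g i 0 k * deriv (fun z => g i z p.1 / g i z k) 0‖ = 1 := by
      intro i
      obtain ⟨p, -, hp⟩ := Finset.exists_max_image Finset.univ (fun p => ‖wr (g i) 0 p‖)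
        Finset.univ_nonempty
      have hp' : ‖wr (g i) 0 p‖ = ‖wr (g i) 0‖ := le_antisymm (norm_le_pi_norm _ p)
        ((pi_norm_le_iff_of_nonneg (norm_nonneg _)).2 fun q => hp q (Finset.mem_univ q))
      refine ⟨p, ?_⟩
      have hk0 := (hchart i 0 h0ε).1
      have hda : ∀ j, DifferentiableAt ℂ (fun z => g i z j) 0 := fun j =>
        ((hg i).diff j).differentiableAt (isOpen_ball.mem_nhds (h0in i))
      have h1 : g i 0 p.1 / g i 0 k * deriv (fun z => g i z p.2 / g i z k) 0 -
          g i 0 p.2 / g i 0 k * deriv (fun z => g i z p.1 / g i z k) 0 =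
            wr (g i) 0 p / (g i 0 k) ^ 2 := by
        rw [deriv_fun_div (hda _) (hda _) hk0, deriv_fun_div (hda _) (hda _) hk0]
        unfold wr
        field_simp
        ring
      rw [h1, norm_div, norm_pow, hgk i, hp']
      exact hW0 i
    obtain ⟨p, hp⟩ : ∃ p : Fin (n + 1) × Fin (n + 1), ∃ᶠ i in (𝒰 : Filter ℕ),
        ‖g i 0 p.1 / g i 0 k * deriv (fun z => g i z p.2 / g i z k) 0 -
          g i 0 p.2 / g i 0 k * deriv (fun z => g i z p.1 / g i z k) 0‖ = 1 := by
      by_contra hc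
      push Not at hc
      have h1 := Filter.eventually_all.2 hc
      obtain ⟨i, hi⟩ := h1.exists
      obtain ⟨p, hp⟩ := hw1 i
      exact hi p hp
    have ht : Tendsto (fun i => ‖g i 0 p.1 / g i 0 k * deriv (fun z => g i z p.2 / g i z k) 0 -
        g i 0 p.2 / g i 0 k * deriv (fun z => g i z p.1 / g i z k) 0‖) 𝒰 (𝓝 0) := by
      have h1 := (((hc0 p.1).mul (hc1 p.2)).sub ((hc0 p.2).mul (hc1 p.1))).norm
      rw [hwz, norm_zero] at h1
      exact h1
    have h2 := (ht.eventually (gt_mem_nhds (zero_lt_one))).and_frequently hp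
    obtain ⟨i, h3, h4⟩ := h2.exists
    rw [h4] at h3
    exact lt_irrefl _ h3

end Pool.Agent.V1153.KB
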